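import Pool.Agent.Lib.MP_b9c6dd_an.BU.BaseDefs

/-!
# No boundary cells in a flag with zero in the convex hull
-/

namespace BUC

open Finset

variable {P : Type} [Fintype P] [DecidableEq P]

private theorem pos_comb {ι : Type*} [Fintype ι] {l v : ι → ℝ} (hl : ∀ j, 0 ≤ l j) (hl1 : ∑ j, l j = 1)
    (hv : ∀ j, 0 < v j) (h0 : ∑ j, l j * v j = 0) : False := by
  have h1 := (Finset.sum_eq_zero_iff_of_nonneg fun j _ => mul_nonneg (hl j) (hv j).le).1 h0
  have h2 : ∑ j, l j = 0 := Finset.sum_eq_zero fun j hj => (mul_eq_zero.1 (h1 j hj)).resolve_right (hv j).ne'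
  rw [hl1] at h2
  exact one_ne_zero h2

omit [DecidableEq P] in
private theorem eta_pos (a : P → ℕ) (q : QQ a) : 0 < eta a q := by
  have h1 : (((ee a q : Fin (nn a)) : ℕ) : ℝ) < (nn a : ℝ) := by exact_mod_cast (ee a q).2
  unfold eta
  exact div_pos (by linarith) (by positivity)

omit [DecidableEq P] in
private theorem eta_lt (a : P → ℕ) (q : QQ a) : eta a q < 1 := by
  have h1 : (0 : ℝ) ≤ (((ee a q : Fin (nn a)) : ℕ) : ℝ) := Nat.cast_nonneg _
  have h2 : (0 : ℝ) < (nn a : ℝ) + 1 := by positivity
  unfold eta
  rw [div_lt_one h2]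
  linarith

private theorem tau_cases (a : P → ℕ) (M : ℕ) (c : QQ a → ℤ) (k : P) : tau a M c k = 0 ∨ tau a M c k = 1 := by
  unfold tau
  split_ifs
  · exact Or.inl rfl
  · exact Or.inr rfl

/-- Cells of a flag with `0` in the convex hull are not on the boundary. Proof: strong induction on `h k`: all `tau (cell s j) m = 1`
for the `m` with `h m < h k`, so the product in `wb` at the block `k` is `1`. If `|cell s i q| = 2M` with `q.1 = k`, then
`|tc s q| = 2 M - 1` and all `cell s j q` have the same sign and absolute value at least `2M-1 ≥ 1`, so that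
`wb (cell s j) q` has this sign for all `j` (`0 < eta < 1`), and a convex combination is not `0`. -/
theorem tau_one_of_HZ (a : P → ℕ) (chi : P → P → Bool) (h : P → ℕ)
    (hh : ∀ k m, m ≠ k → chi k m = true → h m < h k) (M : ℕ) (hM : 1 ≤ M) (s : Flag a M)
    (hs : HZ (fun j : Fin (nn a + 1) => wb a chi M (cell s j))) (k : P) (j : Fin (nn a + 1)) :
    tau a M (cell s j) k = 1 := by
  obtain ⟨l, hl, hl1, hl0⟩ := hs
  have main : ∀ (N : ℕ) (k : P), h k = N → ∀ j : Fin (nn a + 1), tau a M (cell s j) k = 1 := by
    intro N
    induction N using Nat.strong_induction_on with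
    | _ N ih =>
      intro k hk j0
      by_contra hne
      have hex : ∃ q : QQ a, q.1 = k ∧ |cell s j0 q| = 2 * (M : ℤ) := by
        by_contra hno
        apply hne
        unfold tau
        rw [if_neg hno]
      obtain ⟨q, hqk, hq⟩ := hex
      have hprod : ∀ j : Fin (nn a + 1),
          (∏ m ∈ univ.filter (fun m => m ≠ q.1 ∧ chi q.1 m = true), tau a M (cell s j) m) = 1 := by
        intro j
        refine Finset.prod_eq_one fun m hm => ?_
        rw [Finset.mem_filter, hqk] at hm
        have h1 : h m < N := by
          rw [← hk]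
          exact hh k m hm.2.1 hm.2.2
        exact ih (h m) h1 m rfl j
      have hval : ∀ j : Fin (nn a + 1), wb a chi M (cell s j) q =
          ((cell s j q : ℤ) : ℝ) - eta a q * tau a M (cell s j) q.1 := by
        intro j
        unfold wb
        rw [hprod j, mul_one]
      have hsum : ∑ j, l j * wb a chi M (cell s j) q = 0 := by
        have h1 := congrFun hl0 q
        rw [Finset.sum_apply] at h1
        exact h1
      have he0 := eta_pos a q
      have he1 := eta_lt a q
      have het : ∀ j : Fin (nn a + 1), 0 ≤ eta a q * tau a M (cell s j) q.1 ∧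
          eta a q * tau a M (cell s j) q.1 < 1 := by
        intro j
        rcases tau_cases a M (cell s j) q.1 with h | h
        · rw [h, mul_zero]
          exact ⟨le_rfl, zero_lt_one⟩
        · rw [h, mul_one]
          exact ⟨he0.le, he1⟩
      have hs1 : ((s.1 q : ℕ) : ℤ) < 2 * (M : ℤ) := by exact_mod_cast (s.1 q).2
      have hs0 : (0 : ℤ) ≤ ((s.1 q : ℕ) : ℤ) := Int.natCast_nonneg _
      have htc : tc s q = 2 * ((s.1 q : ℕ) : ℤ) - (2 * (M : ℤ) - 1) := rfl
      have hec : ec s q = 1 ∨ ec s q = -1 := by
        unfold ec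
        split_ifs
        · exact Or.inl rfl
        · exact Or.inr rfl
      have hcell : ∀ j : Fin (nn a + 1), cell s j q = tc s q ∨ cell s j q = tc s q + ec s q := by
        intro j
        unfold cell
        split_ifs
        · exact Or.inl rfl
        · exact Or.inr rfl
      have hM' : (1 : ℤ) ≤ (M : ℤ) := by exact_mod_cast hM
      have hcase : (tc s q = 2 * (M : ℤ) - 1 ∧ ec s q = 1) ∨ (tc s q = -(2 * (M : ℤ) - 1) ∧ ec s q = -1) := by
        rcases hcell j0 with h1 | h1
        · rw [h1] at hq
          exfalso
          rcases abs_eq (by omega : (0 : ℤ) ≤ 2 * (M : ℤ)) |>.1 hq with h2 | h2 <;> omega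
        · rw [h1] at hq
          rcases abs_eq (by omega : (0 : ℤ) ≤ 2 * (M : ℤ)) |>.1 hq with h2 | h2
          · left
            rcases hec with h3 | h3
            · exact ⟨by omega, h3⟩
            · exfalso
              omega
          · right
            rcases hec with h3 | h3
            · exfalso
              omega
            · exact ⟨by omega, h3⟩
      rcases hcase with ⟨h1, h2⟩ | ⟨h1, h2⟩
      · refine pos_comb hl hl1 (v := fun j : Fin (nn a + 1) => wb a chi M (cell s j) q) (fun j => ?_) hsum
        show 0 < wb a chi M (cell s j) q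
        rw [hval j]
        have h3 : (1 : ℤ) ≤ cell s j q := by
          rcases hcell j with h4 | h4 <;> omega
        have h5 : (1 : ℝ) ≤ ((cell s j q : ℤ) : ℝ) := by exact_mod_cast h3
        linarith [(het j).2]
      · refine pos_comb hl hl1 (v := fun j : Fin (nn a + 1) => - wb a chi M (cell s j) q) (fun j => ?_) ?_
        · show 0 < - wb a chi M (cell s j) q
          rw [hval j]
          have h3 : cell s j q ≤ (-1 : ℤ) := by
            rcases hcell j with h4 | h4 <;> omega
          have h5 : ((cell s j q : ℤ) : ℝ) ≤ (-1 : ℝ) := by exact_mod_cast h3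
          linarith [(het j).1]
        · show ∑ j, l j * -wb a chi M (cell s j) q = 0
          simp only [mul_neg, Finset.sum_neg_distrib]
          rw [hsum, neg_zero]
  exact main (h k) k rfl j

end BUC
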