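import Pool.Agent.Lib.MP_b9c6dd_an.BU.BaseDefs

/-!
# Uniqueness of the flag
-/

namespace BUC

open Finset

variable {P : Type} [Fintype P] [DecidableEq P]

omit [DecidableEq P] in
private theorem etaC_pos (a : P → ℕ) (q : QQ a) : 0 < eta a q := by
  have h1 : (((ee a q : Fin (nn a)) : ℕ) : ℝ) < (nn a : ℝ) := by exact_mod_cast (ee a q).2
  unfold eta
  exact div_pos (by linarith) (by positivity)

omit [DecidableEq P] in
private theorem etaC_lt (a : P → ℕ) (q : QQ a) : eta a q < 1 := by
  have h1 : (0 : ℝ) ≤ (((ee a q : Fin (nn a)) : ℕ) : ℝ) := Nat.cast_nonneg _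
  have h2 : (0 : ℝ) < (nn a : ℝ) + 1 := by positivity
  unfold eta
  rw [div_lt_one h2]
  linarith

/-- an order preserving bijection is the identity -/
private theorem mono_equiv {n : ℕ} (e : Fin n ≃ Fin n) (h : Monotone e) : e = Equiv.refl _ := by
  have h1 : StrictMono e := h.strictMono_of_injective e.injective
  have h2 : StrictMono e.symm := by
    intro i j hij
    have h3 : e (e.symm i) < e (e.symm j) := by
      rw [Equiv.apply_symm_apply, Equiv.apply_symm_apply]
      exact hij
    exact h1.lt_iff_lt.1 h3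
  refine Equiv.ext fun i => le_antisymm ?_ h1.le_apply
  have h4 : e i ≤ e.symm (e i) := h2.le_apply
  rw [Equiv.symm_apply_apply] at h4
  exact h4

/-- A flag with `0` in the convex hull of `cell - eta` is the flag `sb`, and the coefficients are `1/(n+1)`: with
`∑ l j = 1`, `∑ l j * cell s j q = eta q` in `(0,1)` we get `tc s q ∈ {-1, 1}`, `tc s q + ec s q ∈ {0, ..}`; the value is
`tc + ec * ∑_{j ≤ pi q} l j`, so `tc = 1`, `ec = -1` and `∑_{j ≤ pi q} l j = 1 - eta q = (ee q + 1)/(n+1)`; as the left side is a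
monotone function of `pi q`, and the values of the right side are distinct, `pi = ee` (a monotone bijection of `Fin n` is
the identity), then all `l j = 1/(n+1)` by subtraction. -/
theorem flag_unique (a : P → ℕ) (M : ℕ) (hM : 1 ≤ M) (s : Flag a M)
    (l : Fin (nn a + 1) → ℝ) (hl : ∀ j, 0 ≤ l j) (hl1 : ∑ j, l j = 1)
    (hl0 : ∀ q, ∑ j, l j * ((cell s j q : ℤ) : ℝ) = eta a q) :
    s = sb a M hM := by
  classical
  have key : ∀ q : QQ a, tc s q = 1 ∧ ec s q = -1 ∧
      (∑ j : Fin (nn a + 1), if (j : ℕ) ≤ ((s.2.2 q : Fin (nn a)) : ℕ) then l j else 0) = 1 - eta a q := by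
    intro q
    have h1 : ∑ j : Fin (nn a + 1), l j * ((cell s j q : ℤ) : ℝ) = (tc s q : ℝ) + (ec s q : ℝ) *
        ∑ j : Fin (nn a + 1), (if (j : ℕ) ≤ ((s.2.2 q : Fin (nn a)) : ℕ) then l j else 0) := by
      have h2 : ∀ j : Fin (nn a + 1), l j * ((cell s j q : ℤ) : ℝ) = l j * (tc s q : ℝ) +
          (ec s q : ℝ) * (if (j : ℕ) ≤ ((s.2.2 q : Fin (nn a)) : ℕ) then l j else 0) := by
        intro j
        unfold cell
        by_cases h3 : ((s.2.2 q : Fin (nn a)) : ℕ) < (j : ℕ)
        · rw [if_pos h3, if_neg (not_le.2 h3), mul_zero, add_zero]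
        · rw [if_neg h3, if_pos (not_lt.1 h3)]
          push_cast
          ring
      rw [Finset.sum_congr rfl fun j _ => h2 j, Finset.sum_add_distrib, ← Finset.sum_mul, hl1, one_mul,
        ← Finset.mul_sum]
    rw [hl0 q] at h1
    set L : ℝ := ∑ j : Fin (nn a + 1), (if (j : ℕ) ≤ ((s.2.2 q : Fin (nn a)) : ℕ) then l j else 0) with hL
    have hL0 : 0 ≤ L := Finset.sum_nonneg fun j _ => by
      split_ifs
      · exact hl j
      · exact le_rfl
    have hL1 : L ≤ 1 := by
      rw [← hl1]
      refine Finset.sum_le_sum fun j _ => ?_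
      split_ifs
      · exact le_rfl
      · exact hl j
    have he0 := etaC_pos a q
    have he1 := etaC_lt a q
    have htc : tc s q = 2 * ((s.1 q : ℕ) : ℤ) - (2 * (M : ℤ) - 1) := rfl
    have hec : ec s q = 1 ∨ ec s q = -1 := by
      unfold ec
      split_ifs
      · exact Or.inl rfl
      · exact Or.inr rfl
    rcases hec with h3 | h3
    · exfalso
      rw [h3, Int.cast_one, one_mul] at h1
      have h4 : (tc s q : ℝ) < ((1 : ℤ) : ℝ) := by
        push_cast
        linarith
      have h5 : ((-1 : ℤ) : ℝ) < (tc s q : ℝ) := by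
        push_cast
        linarith
      have h6 : tc s q < 1 := by exact_mod_cast h4
      have h7 : -1 < tc s q := by exact_mod_cast h5
      omega
    · rw [h3] at h1
      push_cast at h1
      have h4 : (tc s q : ℝ) < ((2 : ℤ) : ℝ) := by
        push_cast
        linarith
      have h5 : ((0 : ℤ) : ℝ) < (tc s q : ℝ) := by
        push_cast
        linarith
      have h6 : tc s q < 2 := by exact_mod_cast h4
      have h7 : 0 < tc s q := by exact_mod_cast h5
      have h8 : tc s q = 1 := by omega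
      refine ⟨h8, h3, ?_⟩
      rw [h8] at h1
      push_cast at h1
      linarith
  have hn : (0 : ℝ) < (nn a : ℝ) + 1 := by positivity
  have hval : ∀ q : QQ a,
      (∑ j : Fin (nn a + 1), if (j : ℕ) ≤ ((s.2.2 q : Fin (nn a)) : ℕ) then l j else 0) =
        ((((ee a q : Fin (nn a)) : ℕ) : ℝ) + 1) / ((nn a : ℝ) + 1) := by
    intro q
    rw [(key q).2.2]
    unfold eta
    field_simp
    ring
  have hmono : Monotone (s.2.2.symm.trans (ee a)) := by
    intro i i' hi
    have h1 := hval (s.2.2.symm i)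
    have h2 := hval (s.2.2.symm i')
    rw [Equiv.apply_symm_apply] at h1 h2
    have h3 : (∑ j : Fin (nn a + 1), if (j : ℕ) ≤ (i : ℕ) then l j else 0) ≤
        ∑ j : Fin (nn a + 1), if (j : ℕ) ≤ (i' : ℕ) then l j else 0 := by
      refine Finset.sum_le_sum fun j _ => ?_
      by_cases h4 : (j : ℕ) ≤ (i : ℕ)
      · have hi' : (i : ℕ) ≤ (i' : ℕ) := hi
        rw [if_pos h4, if_pos (h4.trans hi')]
      · rw [if_neg h4]
        split_ifs
        · exact hl j
        · exact le_rfl
    rw [h1, h2, div_le_div_iff_of_pos_right hn] at h3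
    have h5 : (((ee a (s.2.2.symm i) : Fin (nn a)) : ℕ) : ℝ) ≤ (((ee a (s.2.2.symm i') : Fin (nn a)) : ℕ) : ℝ) := by
      linarith
    have h6 : ((ee a (s.2.2.symm i) : Fin (nn a)) : ℕ) ≤ ((ee a (s.2.2.symm i') : Fin (nn a)) : ℕ) := by
      exact_mod_cast h5
    exact h6
  have hid := mono_equiv _ hmono
  refine Prod.ext ?_ (Prod.ext ?_ ?_)
  · funext q
    have h1 := (key q).1
    have htc : tc s q = 2 * ((s.1 q : ℕ) : ℤ) - (2 * (M : ℤ) - 1) := rfl
    refine Fin.ext ?_
    show ((s.1 q : Fin (2 * M)) : ℕ) = M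
    omega
  · funext q
    have h1 := (key q).2.1
    unfold ec at h1
    show s.2.1 q = false
    by_contra h2
    rw [if_pos (Bool.eq_true_of_not_eq_false h2)] at h1
    omega
  · show s.2.2 = ee a
    refine Equiv.ext fun q => ?_
    have h1 := congrFun (congrArg DFunLike.coe hid) (s.2.2 q)
    rw [Equiv.trans_apply, Equiv.symm_apply_apply] at h1
    exact h1.symm

end BUC
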