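import Pool.Agent.Lib.MP_b9c6dd_an.BU.BaseDefs

/-!
# The base flag
-/

namespace BUC

open Finset

variable {P : Type} [Fintype P] [DecidableEq P]

theorem aux_BaseD_cell (a : P → ℕ) (M : ℕ) (hM : 1 ≤ M) (j : ℕ) (q : QQ a) :
    cell (sb a M hM) j q = if ((ee a q : Fin (nn a)) : ℕ) < j then 1 else 0 := by
  simp only [cell, tc, ec, sb]
  split_ifs <;> simp_all

theorem aux_BaseD_cast (a : P → ℕ) (M : ℕ) (hM : 1 ≤ M) (j : ℕ) (q : QQ a) :
    ((cell (sb a M hM) j q : ℤ) : ℝ) = if ((ee a q : Fin (nn a)) : ℕ) < j then 1 else 0 := by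
  rw [aux_BaseD_cell]
  split_ifs <;> simp

theorem aux_BaseD_card (n e : ℕ) (he : e ≤ n) :
    ∑ j : Fin (n + 1), (if e < (j : ℕ) then (1 : ℝ) else 0) = (n : ℝ) - e := by
  rw [Fin.sum_univ_eq_sum_range (fun j => if e < j then (1 : ℝ) else 0) (n + 1), Finset.sum_ite]
  simp only [Finset.sum_const_zero, add_zero, Finset.sum_const, nsmul_eq_mul, mul_one]
  have h : (Finset.range (n + 1)).filter (fun j => e < j) = Finset.Ioc e n := by
    ext j
    simp only [Finset.mem_filter, Finset.mem_range, Finset.mem_Ioc]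
    omega
  rw [h, Nat.card_Ioc, Nat.cast_sub he]

/-- The flag `sb` works with all coefficients `1/(n+1)`. -/
theorem sb_sum (a : P → ℕ) (M : ℕ) (hM : 1 ≤ M) (q : QQ a) :
    ∑ j : Fin (nn a + 1), (1 / ((nn a : ℝ) + 1)) * ((cell (sb a M hM) j q : ℤ) : ℝ) = eta a q := by
  simp only [aux_BaseD_cast]
  rw [← Finset.mul_sum, aux_BaseD_card _ _ (ee a q).2.le, eta]
  ring

theorem aux_BaseD_tau (a : P → ℕ) (M : ℕ) (hM : 1 ≤ M) (j : ℕ) (k : P) :
    tau a M (cell (sb a M hM) j) k = 1 := by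
  have h : ¬ ∃ q : QQ a, q.1 = k ∧ |cell (sb a M hM) j q| = 2 * (M : ℤ) := by
    rintro ⟨q, _, h⟩
    rw [aux_BaseD_cell] at h
    have h2 : (1 : ℤ) ≤ M := by exact_mod_cast hM
    split_ifs at h
    · rw [abs_one] at h
      omega
    · rw [abs_zero] at h
      omega
  simp only [tau, if_neg h]

/-- For `M ≥ 1` the cells of `sb` are not on the boundary, `wb` is `cell - eta` there. -/
theorem wb_sb (a : P → ℕ) (chi : P → P → Bool) (M : ℕ) (hM : 1 ≤ M) (j : Fin (nn a + 1))
    (q : QQ a) :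
    wb a chi M (cell (sb a M hM) j) q = ((cell (sb a M hM) j q : ℤ) : ℝ) - eta a q := by
  simp only [wb, aux_BaseD_tau, Finset.prod_const_one, mul_one]

/-- No affine relation between the vectors of `sb`: if `∑ l j = 0` and `∑ l j • wb (cell sb j) = 0` then `l = 0`.
(`cell sb j q = 0` for `j ≤ ee q` and `1` for `j > ee q`: the tails `∑_{j > r} l j` vanish for all `r`.) -/
theorem sb_indep (a : P → ℕ) (chi : P → P → Bool) (M : ℕ) (hM : 1 ≤ M)
    (l : Fin (nn a + 1) → ℝ) (hl : ∑ j, l j = 0)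
    (hl0 : ∑ j, l j • wb a chi M (cell (sb a M hM) j) = 0) : l = 0 := by
  -- tails
  have hT : ∀ m : ℕ, m ≤ nn a + 1 → ∑ j : Fin (nn a + 1), (if m ≤ (j : ℕ) then l j else 0) = 0 := by
    intro m hm
    rcases Nat.eq_zero_or_pos m with h0 | h0
    · subst h0
      simpa using hl
    · rcases Nat.lt_or_ge (nn a) m with h1 | h1
      · refine Finset.sum_eq_zero fun j _ => ?_
        have := j.2
        rw [if_neg (by omega)]
      · have hlt : m - 1 < nn a := by omega
        have h2 := congrFun hl0 ((ee a).symm ⟨m - 1, hlt⟩)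
        rw [Finset.sum_apply] at h2
        simp only [Pi.smul_apply, smul_eq_mul, wb_sb, aux_BaseD_cast, Equiv.apply_symm_apply,
          Pi.zero_apply] at h2
        have h3 : ∑ j : Fin (nn a + 1), l j * ((if m - 1 < (j : ℕ) then (1 : ℝ) else 0) -
            eta a ((ee a).symm ⟨m - 1, hlt⟩))
            = ∑ j : Fin (nn a + 1), (if m ≤ (j : ℕ) then l j else 0)
              - eta a ((ee a).symm ⟨m - 1, hlt⟩) * ∑ j, l j := by
          rw [Finset.mul_sum, ← Finset.sum_sub_distrib]
          refine Finset.sum_congr rfl fun j _ => ?_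
          by_cases hj : m ≤ (j : ℕ)
          · rw [if_pos hj, if_pos (by omega)]
            ring
          · rw [if_neg hj, if_neg (by omega)]
            ring
        rw [h3, hl, mul_zero, sub_zero] at h2
        exact h2
  funext i
  have h1 := hT i (by have := i.2; omega)
  have h2 := hT (i + 1) (by have := i.2; omega)
  have h3 : ∑ j : Fin (nn a + 1), (if (i : ℕ) ≤ (j : ℕ) then l j else 0)
      - ∑ j : Fin (nn a + 1), (if (i : ℕ) + 1 ≤ (j : ℕ) then l j else 0) = l i := by
    rw [← Finset.sum_sub_distrib, Finset.sum_eq_single i]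
    · rw [if_pos le_rfl, if_neg (by omega), sub_zero]
    · intro j _ hj
      have hj' : (j : ℕ) ≠ (i : ℕ) := fun h => hj (Fin.ext h)
      by_cases h : (i : ℕ) ≤ (j : ℕ)
      · rw [if_pos h, if_pos (by omega), sub_self]
      · rw [if_neg h, if_neg (by omega), sub_self]
    · intro h
      exact absurd (Finset.mem_univ i) h
  rw [h1, h2, sub_zero] at h3
  rw [← h3]
  rfl

end BUC
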