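import Pool.Agent.Lib.MP_b9c6dd_an.BU.BaseA
import Pool.Agent.Lib.MP_b9c6dd_an.BU.BaseB
import Pool.Agent.Lib.MP_b9c6dd_an.BU.BaseC
import Pool.Agent.Lib.MP_b9c6dd_an.BU.BaseD

/-!
# The base map has exactly one flag
-/

namespace BUC

open Finset

variable {P : Type} [Fintype P] [DecidableEq P]

/-- Uniqueness. -/
theorem wb_unique (a : P → ℕ) (chi : P → P → Bool) (h : P → ℕ)
    (hh : ∀ k m, m ≠ k → chi k m = true → h m < h k) (M : ℕ) (hM : 1 ≤ M) (s : Flag a M)
    (hs : HZ (fun j : Fin (nn a + 1) => wb a chi M (cell s j))) : s = sb a M hM := by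
  have ht := tau_one_of_HZ a chi h hh M hM s hs
  obtain ⟨l, hl, hl1, hl0⟩ := hs
  refine flag_unique a M hM s l hl hl1 fun q => ?_
  have h1 := congrFun hl0 q
  simp only [Finset.sum_apply, Pi.smul_apply, smul_eq_mul, Pi.zero_apply] at h1
  have h2 : ∀ j : Fin (nn a + 1), wb a chi M (cell s j) q = ((cell s j q : ℤ) : ℝ) - eta a q := by
    intro j
    unfold wb
    rw [ht q.1 j, mul_one, Finset.prod_eq_one (fun m _ => ht m j), mul_one]
  simp only [h2, mul_sub, Finset.sum_sub_distrib] at h1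
  rw [← Finset.sum_mul, hl1, one_mul] at h1
  linarith

end BUC
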