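import Pool.Agent.Lib.MP_b9c6dd_an.BU.BaseDefs

/-!
# The base map is admissible
-/

namespace BUC

open Finset

variable {P : Type} [Fintype P] [DecidableEq P]

/-- `wb` is admissible (block `m` on the boundary): at `q` with `q.1 = m` the value changes sign (`tau = 0`,
`chi m m = true`, the product does not contain `m`); at `q` with `q.1 ≠ m` and `chi q.1 m = true` the product is `0`; otherwise
nothing changes. (`tau` of the reflected cell is `tau`.) -/
theorem wb_adm (a : P → ℕ) (chi : P → P → Bool) (hchi : ∀ k, chi k k = true) (M : ℕ) :
    Adm a chi M (wb a chi M) := by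
  intro m c hc
  have habs : ∀ q : QQ a, |refl a m c q| = |c q| := by
    intro q
    unfold refl
    split_ifs
    · exact abs_neg _
    · rfl
  have htau : ∀ k : P, tau a M (refl a m c) k = tau a M c k := by
    intro k
    unfold tau
    simp only [habs]
  have htau0 : tau a M c m = 0 := by
    unfold tau
    exact if_pos hc.2
  funext q
  have hw : wb a chi M (refl a m c) q = ((refl a m c q : ℝ) - eta a q * tau a M c q.1) *
      ∏ k ∈ univ.filter (fun k => k ≠ q.1 ∧ chi q.1 k = true), tau a M c k := by
    unfold wb
    rw [htau]
    congr 1
    exact Finset.prod_congr rfl fun k _ => htau k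
  rw [hw]
  by_cases hq : q.1 = m
  · have h1 : gk a chi m (wb a chi M c) q = - wb a chi M c q := by
      unfold gk
      rw [hq, if_pos (hchi m)]
    have h2 : refl a m c q = - c q := by
      unfold refl
      exact if_pos hq
    have h3 : tau a M c q.1 = 0 := by rw [hq]; exact htau0
    rw [h1, h2]
    unfold wb
    rw [h3]
    push_cast
    ring
  · have h2 : refl a m c q = c q := by
      unfold refl
      exact if_neg hq
    rw [h2]
    by_cases hm : chi q.1 m = true
    · have h4 : ∏ k ∈ univ.filter (fun k => k ≠ q.1 ∧ chi q.1 k = true), tau a M c k = 0 := by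
        apply Finset.prod_eq_zero (i := m)
        · simp only [Finset.mem_filter, Finset.mem_univ, true_and]
          exact ⟨fun h => hq h.symm, hm⟩
        · exact htau0
      have h1 : gk a chi m (wb a chi M c) q = - wb a chi M c q := by
        unfold gk
        rw [if_pos hm]
      rw [h1]
      unfold wb
      rw [h4]
      simp
    · have h1 : gk a chi m (wb a chi M c) q = wb a chi M c q := by
        unfold gk
        rw [if_neg hm]
      rw [h1]
      rfl

end BUC
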