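import Pool.Agent.Lib.MP_b9c6dd_an.BU.Defs

/-!
# The explicit map with exactly one flag: definitions
-/

namespace BUC

open Finset

variable {P : Type} [Fintype P] [DecidableEq P]

/-- an enumeration of the coordinates -/
noncomputable def ee (a : P → ℕ) : QQ a ≃ Fin (nn a) := Fintype.equivFin (QQ a)

/-- the numbers `(n - e q)/(n+1)` in `(0,1)` -/
noncomputable def eta (a : P → ℕ) (q : QQ a) : ℝ :=
  ((nn a : ℝ) - ((ee a q : Fin (nn a)) : ℕ)) / ((nn a : ℝ) + 1)

/-- `0` on the boundary of the block, `1` else -/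
def tau (a : P → ℕ) (M : ℕ) (c : QQ a → ℤ) (k : P) : ℝ :=
  if ∃ q : QQ a, q.1 = k ∧ |c q| = 2 * (M : ℤ) then 0 else 1

/-- The base map. -/
noncomputable def wb (a : P → ℕ) (chi : P → P → Bool) (M : ℕ) (c : QQ a → ℤ) : QQ a → ℝ :=
  fun q => ((c q : ℝ) - eta a q * tau a M c q.1) *
    ∏ m ∈ univ.filter (fun m => m ≠ q.1 ∧ chi q.1 m = true), tau a M c m

/-- The flag of the base map: `tc = 1`, `ec = -1`, bijection `ee`. -/
noncomputable def sb (a : P → ℕ) (M : ℕ) (hM : 1 ≤ M) : Flag a M :=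
  (fun _ => ⟨M, by omega⟩, fun _ => false, ee a)

end BUC
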