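import Mathlib

/-!
# Borsuk-Ulam for products of cubes: definitions

`P` is the finite set of blocks, `a k` the dimension of the block `k`,
`QQ a` the set of all coordinates.
-/

namespace BUC

open Finset

/-- `0` is a convex combination of the `x j`. -/
def HZ {ι V : Type*} [Fintype ι] [AddCommGroup V] [Module ℝ V] (x : ι → V) : Prop :=
  ∃ l : ι → ℝ, (∀ j, 0 ≤ l j) ∧ (∑ j, l j = 1) ∧ ∑ j, l j • x j = 0

/-- `0` is a convex combination of the `x j` with `j ≠ i`. -/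
def HZd {ι V : Type*} [Fintype ι] [AddCommGroup V] [Module ℝ V] (x : ι → V) (i : ι) : Prop :=
  ∃ l : ι → ℝ, (∀ j, 0 ≤ l j) ∧ (∑ j, l j = 1) ∧ l i = 0 ∧ ∑ j, l j • x j = 0

/-- Genericity: a linear relation with two vanishing coefficients is trivial. -/
def Gen {ι V : Type*} [Fintype ι] [AddCommGroup V] [Module ℝ V] (x : ι → V) : Prop :=
  ∀ l : ι → ℝ, ∑ j, l j • x j = 0 → ∀ i j, i ≠ j → l i = 0 → l j = 0 → l = 0

variable {P : Type} [Fintype P] [DecidableEq P]

/-- The coordinates. -/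
abbrev QQ (a : P → ℕ) := Σ k : P, Fin (a k)

/-- The number of coordinates. -/
abbrev nn (a : P → ℕ) : ℕ := Fintype.card (QQ a)

/-- Reflection of the block `k`. -/
def refl (a : P → ℕ) (k : P) (c : QQ a → ℤ) : QQ a → ℤ :=
  fun q => if q.1 = k then - c q else c q

/-- Sign change of the values. -/
def gk (a : P → ℕ) (chi : P → P → Bool) (k : P) (x : QQ a → ℝ) : QQ a → ℝ :=
  fun q => if chi q.1 k = true then - x q else x q

/-- The cell `c` lies in the big cube, and its block `k` is on the boundary. -/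
def OnBd (a : P → ℕ) (M : ℕ) (k : P) (c : QQ a → ℤ) : Prop :=
  (∀ q, |c q| ≤ 2 * (M : ℤ)) ∧ ∃ q : QQ a, q.1 = k ∧ |c q| = 2 * (M : ℤ)

/-- Admissible maps. -/
def Adm (a : P → ℕ) (chi : P → P → Bool) (M : ℕ) (w : (QQ a → ℤ) → (QQ a → ℝ)) : Prop :=
  ∀ k c, OnBd a M k c → w (refl a k c) = gk a chi k (w c)

/-- Flags of the cubical complex. -/
abbrev Flag (a : P → ℕ) (M : ℕ) :=
  (QQ a → Fin (2 * M)) × (QQ a → Bool) × (QQ a ≃ Fin (nn a))

/-- odd coordinate of a flag -/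
def tc {a : P → ℕ} {M : ℕ} (s : Flag a M) (q : QQ a) : ℤ :=
  2 * ((s.1 q : ℕ) : ℤ) - (2 * (M : ℤ) - 1)

/-- direction -/
def ec {a : P → ℕ} {M : ℕ} (s : Flag a M) (q : QQ a) : ℤ := if s.2.1 q = true then 1 else -1

/-- The cells of a flag, `0 ≤ i ≤ nn a`. -/
def cell {a : P → ℕ} {M : ℕ} (s : Flag a M) (i : ℕ) : QQ a → ℤ :=
  fun q => if ((s.2.2 q : Fin (nn a)) : ℕ) < i then tc s q else tc s q + ec s q

/-- The vectors at the cells of a flag: `w1` on the first `k`, `w0` on the others. -/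
def mixv {a : P → ℕ} {M : ℕ} (w0 w1 : (QQ a → ℤ) → (QQ a → ℝ)) (s : Flag a M) (k : ℕ) :
    Fin (nn a + 1) → (QQ a → ℝ) :=
  fun j => if (j : ℕ) < k then w1 (cell s j) else w0 (cell s j)

/-- The same vectors and in addition `w1` at the cell `k`. -/
def xv {a : P → ℕ} {M : ℕ} (w0 w1 : (QQ a → ℤ) → (QQ a → ℝ)) (s : Flag a M)
    (k : Fin (nn a + 1)) : Option (Fin (nn a + 1)) → (QQ a → ℝ) :=
  fun o => Option.elim o (w1 (cell s k)) (fun j => mixv w0 w1 s k j)

open Classical in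
/-- The number of flags with `0` in the convex hull of the vectors, mod 2. -/
noncomputable def NN {a : P → ℕ} {M : ℕ} (w0 w1 : (QQ a → ℤ) → (QQ a → ℝ)) (k : ℕ) : ZMod 2 :=
  ∑ s : Flag a M, if HZ (mixv w0 w1 s k) then (1 : ZMod 2) else 0

end BUC
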