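import Pool.Agent.Lib.MP_b9c6dd_an.BU.ElemDefs

/-!
# Values of elementary admissible maps
-/

namespace BUC

open Finset

variable {P : Type} [Fintype P] [DecidableEq P]

/-- Value at `c0`: only `S = ∅` contributes (for `k ∈ S ⊆ bd c0` some coordinate of block `k` is `≠ 0`). -/
theorem elem_self (a : P → ℕ) (chi : P → P → Bool) (M : ℕ) (hM : 1 ≤ M) (c0 : QQ a → ℤ)
    (v : QQ a → ℝ) : elem a chi M c0 v c0 = v := by
  unfold elem
  rw [Finset.sum_eq_single ∅]
  · have h1 : c0 = reflS a ∅ c0 := by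
      funext q
      simp [reflS]
    rw [if_pos h1]
    funext q
    simp [gS]
  · intro S hS hne
    obtain ⟨k, hk⟩ := Finset.nonempty_iff_ne_empty.2 hne
    have hk' := (Finset.mem_powerset.1 hS) hk
    obtain ⟨q, hq, hq2⟩ := (Finset.mem_filter.1 hk').2
    rw [if_neg]
    intro h
    have h1 := congrFun h q
    have h2 : reflS a S c0 q = - c0 q := by
      unfold reflS
      rw [if_pos (by rw [hq]; exact hk)]
    rw [h2] at h1
    have h3 : c0 q = 0 := by omega
    rw [h3, abs_zero] at hq2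
    omega
  · intro h
    exact absurd (Finset.empty_mem_powerset _) h

/-- Value at a cell with another parity pattern. -/
theorem elem_of_parity (a : P → ℕ) (chi : P → P → Bool) (M : ℕ) (c0 c : QQ a → ℤ)
    (v : QQ a → ℝ) (q : QQ a) (h : ¬ (Even (c q) ↔ Even (c0 q))) : elem a chi M c0 v c = 0 := by
  unfold elem
  refine Finset.sum_eq_zero fun S _ => ?_
  rw [if_neg]
  intro hc
  apply h
  rw [hc]
  unfold reflS
  by_cases hq : q.1 ∈ S
  · rw [if_pos hq, even_neg]
  · rw [if_neg hq]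

/-- parity of the coordinates of the cells of a flag -/
theorem even_cell {a : P → ℕ} {M : ℕ} (s : Flag a M) (j : ℕ) (q : QQ a) :
    Even (cell s j q) ↔ ¬ ((s.2.2 q : Fin (nn a)) : ℕ) < j := by
  unfold cell
  by_cases h : ((s.2.2 q : Fin (nn a)) : ℕ) < j
  · rw [if_pos h]
    refine ⟨fun he => ?_, fun hn => absurd h hn⟩
    exfalso
    obtain ⟨r, hr⟩ := he
    unfold tc at hr
    omega
  · rw [if_neg h]
    refine ⟨fun _ => h, fun _ => ?_⟩
    unfold tc ec
    by_cases h2 : s.2.1 q = true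
    · rw [if_pos h2]
      exact ⟨((s.1 q : ℕ) : ℤ) - (M : ℤ) + 1, by ring⟩
    · rw [if_neg h2]
      exact ⟨((s.1 q : ℕ) : ℤ) - (M : ℤ), by ring⟩

/-- Different cells of a flag have different parity patterns. -/
theorem exists_parity {a : P → ℕ} {M : ℕ} (s : Flag a M) (i j : Fin (nn a + 1)) (h : i ≠ j) :
    ∃ q, ¬ (Even (cell s i q) ↔ Even (cell s j q)) := by
  have key : ∀ i j : Fin (nn a + 1), i < j → ∃ q, ¬ (Even (cell s i q) ↔ Even (cell s j q)) := by
    intro i j hij
    have hi : (i : ℕ) < nn a := by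
      have h1 : (i : ℕ) < (j : ℕ) := hij
      have h2 := j.isLt
      omega
    refine ⟨s.2.2.symm ⟨i, hi⟩, ?_⟩
    rw [even_cell, even_cell, Equiv.apply_symm_apply]
    intro h
    have h3 : (i : ℕ) < (j : ℕ) := hij
    exact (h.1 (lt_irrefl (i : ℕ))) h3
  rcases lt_or_gt_of_ne h with h1 | h1
  · exact key i j h1
  · obtain ⟨q, hq⟩ := key j i h1
    exact ⟨q, fun hh => hq hh.symm⟩

end BUC
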