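import Pool.Agent.Lib.MP_b9c6dd_an.BU.ElemA
import Pool.Agent.Lib.MP_b9c6dd_an.BU.ElemB

/-!
# Admissible maps with prescribed values on a flag
-/

namespace BUC

open Finset

variable {P : Type} [Fintype P] [DecidableEq P]

theorem Elem_gk_sum (a : P → ℕ) (chi : P → P → Bool) (k : P) {ι : Type} (s : Finset ι) (f : ι → (QQ a → ℝ)) :
    gk a chi k (∑ i ∈ s, f i) = ∑ i ∈ s, gk a chi k (f i) := by
  funext q
  rw [Finset.sum_apply]
  simp only [gk]
  split_ifs
  · rw [Finset.sum_apply, Finset.sum_neg_distrib]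
  · rw [Finset.sum_apply]

/-- There is an admissible map with prescribed values on the cells of a flag:
`∑ j, elem (cell s j) (v j)`. -/
theorem exists_adm_values (a : P → ℕ) (chi : P → P → Bool) (M : ℕ) (hM : 1 ≤ M) (s : Flag a M)
    (v : Fin (nn a + 1) → (QQ a → ℝ)) :
    ∃ w, Adm a chi M w ∧ ∀ j : Fin (nn a + 1), w (cell s j) = v j := by
  refine ⟨fun c => ∑ j : Fin (nn a + 1), elem a chi M (cell s j) (v j) c, ?_, ?_⟩
  · intro k c hc
    show ∑ j : Fin (nn a + 1), elem a chi M (cell s j) (v j) (refl a k c) =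
      gk a chi k (∑ j : Fin (nn a + 1), elem a chi M (cell s j) (v j) c)
    rw [Elem_gk_sum]
    exact Finset.sum_congr rfl fun j _ => elem_adm a chi M hM (cell s j) (v j) k c hc
  · intro j
    show ∑ i : Fin (nn a + 1), elem a chi M (cell s i) (v i) (cell s j) = v j
    rw [Finset.sum_eq_single j]
    · exact elem_self a chi M hM (cell s j) (v j)
    · intro i _ hij
      obtain ⟨q, hq⟩ := exists_parity s j i hij.symm
      exact elem_of_parity a chi M (cell s i) (cell s j) (v i) q hq
    · intro h
      exact absurd (Finset.mem_univ j) h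

end BUC
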