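import Pool.Agent.Lib.MP_b9c6dd_an.BU.ElemDefs

/-!
# Elementary admissible maps are admissible
-/

namespace BUC

open Finset

variable {P : Type} [Fintype P] [DecidableEq P]

private theorem refl_refl' (a : P → ℕ) (k : P) (c : QQ a → ℤ) : refl a k (refl a k c) = c := by
  funext q
  unfold refl
  by_cases h : q.1 = k
  · simp only [if_pos h, neg_neg]
  · simp only [if_neg h]

private theorem refl_reflS (a : P → ℕ) (k : P) (S : Finset P) (c : QQ a → ℤ) :
    refl a k (reflS a S c) = reflS a (symmDiff S {k}) c := by
  funext q
  unfold refl reflS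
  by_cases h : q.1 = k
  · have h1 : q.1 ∈ symmDiff S {k} ↔ q.1 ∉ S := by
      rw [Finset.mem_symmDiff, Finset.mem_singleton]
      constructor
      · rintro (h2 | h2)
        · exact absurd h h2.2
        · exact h2.2
      · intro h2
        exact Or.inr ⟨h, h2⟩
    by_cases h2 : q.1 ∈ S
    · have h3 : q.1 ∉ symmDiff S {k} := fun h4 => (h1.1 h4) h2
      simp only [if_pos h, if_pos h2, if_neg h3, neg_neg]
    · simp only [if_pos h, if_neg h2, if_pos (h1.2 h2)]
  · have h1 : q.1 ∈ symmDiff S {k} ↔ q.1 ∈ S := by
      rw [Finset.mem_symmDiff, Finset.mem_singleton]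
      constructor
      · rintro (h2 | h2)
        · exact h2.1
        · exact absurd h2.1 h
      · intro h2
        exact Or.inl ⟨h2, h⟩
    by_cases h2 : q.1 ∈ S
    · simp only [if_neg h, if_pos h2, if_pos (h1.2 h2)]
    · have h3 : q.1 ∉ symmDiff S {k} := fun h4 => h2 (h1.1 h4)
      simp only [if_neg h, if_neg h2, if_neg h3]

private theorem prod_symmDiff (f : P → ℝ) (k : P) (hf : f k * f k = 1) (S : Finset P) :
    ∏ j ∈ S, f j = f k * ∏ j ∈ symmDiff S {k}, f j := by
  by_cases h : k ∈ S
  · have h1 : symmDiff S {k} = S.erase k := by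
      ext j
      rw [Finset.mem_symmDiff, Finset.mem_singleton, Finset.mem_erase]
      constructor
      · rintro (h2 | h2)
        · exact ⟨h2.2, h2.1⟩
        · exact absurd (h2.1 ▸ h) h2.2
      · rintro ⟨h2, h3⟩
        exact Or.inl ⟨h3, h2⟩
    rw [h1, Finset.mul_prod_erase S f h]
  · have h1 : symmDiff S {k} = insert k S := by
      ext j
      rw [Finset.mem_symmDiff, Finset.mem_singleton, Finset.mem_insert]
      constructor
      · rintro (h2 | h2)
        · exact Or.inr h2.1
        · exact Or.inl h2.1
      · rintro (h2 | h2)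
        · exact Or.inr ⟨h2, h2 ▸ h⟩
        · refine Or.inl ⟨h2, ?_⟩
          intro h3
          exact h (h3 ▸ h2)
    rw [h1, Finset.prod_insert h, ← mul_assoc, hf, one_mul]

private theorem gk_apply' (a : P → ℕ) (chi : P → P → Bool) (k : P) (x : QQ a → ℝ) (q : QQ a) :
    gk a chi k x q = (if chi q.1 k = true then (-1 : ℝ) else 1) * x q := by
  unfold gk
  by_cases h : chi q.1 k = true
  · simp only [if_pos h, neg_mul, one_mul]
  · simp only [if_neg h, one_mul]

private theorem abs_reflS (a : P → ℕ) (S : Finset P) (c : QQ a → ℤ) (q : QQ a) :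
    |reflS a S c q| = |c q| := by
  unfold reflS
  by_cases h : q.1 ∈ S
  · simp only [if_pos h, abs_neg]
  · simp only [if_neg h]

private theorem abs_refl' (a : P → ℕ) (k : P) (c : QQ a → ℤ) (q : QQ a) :
    |refl a k c q| = |c q| := by
  unfold refl
  by_cases h : q.1 = k
  · simp only [if_pos h, abs_neg]
  · simp only [if_neg h]

/-- `elem` is admissible. Proof: let `OnBd a M k c`. If `k ∈ bd c0`: `refl k c = reflS S c0` iff `c = reflS (symmDiff S {k}) c0`;
reindex the sum by `S ↦ symmDiff S {k}` and use `gS (symmDiff S {k}) v = gk k (gS S v)`. If `k ∉ bd c0`: both sides are `0`,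
because all coordinates of `reflS S c0` in the block `k` have absolute value different from `2 M`. -/
theorem elem_adm (a : P → ℕ) (chi : P → P → Bool) (M : ℕ) (hM : 1 ≤ M) (c0 : QQ a → ℤ)
    (v : QQ a → ℝ) : Adm a chi M (elem a chi M c0 v) := by
  intro k c hc
  obtain ⟨_, q0, hq0, hq1⟩ := hc
  by_cases hk : k ∈ bd a M c0
  · funext q
    rw [gk_apply']
    unfold elem
    rw [Finset.sum_apply, Finset.sum_apply, Finset.mul_sum]
    refine Finset.sum_nbij' (fun S => symmDiff S {k}) (fun S => symmDiff S {k}) ?_ ?_ ?_ ?_ ?_
    · intro S hS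
      rw [Finset.mem_powerset] at hS ⊢
      intro j hj
      rw [Finset.mem_symmDiff, Finset.mem_singleton] at hj
      rcases hj with h2 | h2
      · exact hS h2.1
      · rw [h2.1]
        exact hk
    · intro S hS
      rw [Finset.mem_powerset] at hS ⊢
      intro j hj
      rw [Finset.mem_symmDiff, Finset.mem_singleton] at hj
      rcases hj with h2 | h2
      · exact hS h2.1
      · rw [h2.1]
        exact hk
    · intro S _
      exact symmDiff_symmDiff_cancel_right _ _
    · intro S _
      exact symmDiff_symmDiff_cancel_right _ _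
    · intro S _
      have h1 : refl a k c = reflS a S c0 ↔ c = reflS a (symmDiff S {k}) c0 := by
        rw [← refl_reflS]
        constructor
        · intro h
          rw [← h, refl_refl']
        · intro h
          rw [h, refl_refl']
      by_cases h2 : refl a k c = reflS a S c0
      · rw [if_pos h2, if_pos (h1.1 h2)]
        unfold gS
        have h3 := prod_symmDiff (fun j => if chi q.1 j = true then (-1 : ℝ) else 1) k (by
          by_cases h : chi q.1 k = true
          · simp only [if_pos h]
            norm_num
          · simp only [if_neg h]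
            norm_num) S
        rw [h3, mul_assoc]
      · have h3 : ¬ c = reflS a (symmDiff S {k}) c0 := fun h => h2 (h1.2 h)
        rw [if_neg h2, if_neg h3, Pi.zero_apply, mul_zero]
  · have hk' : |c0 q0| ≠ 2 * (M : ℤ) := by
      intro h
      apply hk
      unfold bd
      rw [Finset.mem_filter]
      exact ⟨Finset.mem_univ _, q0, hq0, h⟩
    have h1 : ∀ S : Finset P, ¬ c = reflS a S c0 := by
      intro S h
      apply hk'
      rw [← hq1, h, abs_reflS]
    have h2 : ∀ S : Finset P, ¬ refl a k c = reflS a S c0 := by
      intro S h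
      apply hk'
      rw [← hq1, ← abs_refl' a k c q0, h, abs_reflS]
    funext q
    rw [gk_apply']
    unfold elem
    rw [Finset.sum_apply, Finset.sum_apply]
    have h3 : ∑ S ∈ (bd a M c0).powerset,
        (if refl a k c = reflS a S c0 then gS a chi S v else 0) q = 0 := by
      apply Finset.sum_eq_zero
      intro S _
      rw [if_neg (h2 S), Pi.zero_apply]
    have h4 : ∑ S ∈ (bd a M c0).powerset,
        (if c = reflS a S c0 then gS a chi S v else 0) q = 0 := by
      apply Finset.sum_eq_zero
      intro S _
      rw [if_neg (h1 S), Pi.zero_apply]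
    rw [h3, h4, mul_zero]

end BUC
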