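import Pool.Agent.Lib.MP_b9c6dd_an.BU.Defs

/-!
# Elementary admissible maps, definitions
-/

namespace BUC

open Finset

variable {P : Type} [Fintype P] [DecidableEq P]

/-- Reflection of a set of blocks. -/
def reflS (a : P → ℕ) (S : Finset P) (c : QQ a → ℤ) : QQ a → ℤ :=
  fun q => if q.1 ∈ S then - c q else c q

/-- Sign change for a set of blocks: the product of the signs `chi q.1 k`, `k ∈ S`. -/
def gS (a : P → ℕ) (chi : P → P → Bool) (S : Finset P) (x : QQ a → ℝ) : QQ a → ℝ :=
  fun q => (∏ k ∈ S, if chi q.1 k = true then (-1 : ℝ) else 1) * x q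

/-- The boundary blocks of a cell. -/
def bd (a : P → ℕ) (M : ℕ) (c : QQ a → ℤ) : Finset P :=
  univ.filter (fun k => ∃ q : QQ a, q.1 = k ∧ |c q| = 2 * (M : ℤ))

/-- The elementary admissible map at the cell `c0` with value `v`. -/
noncomputable def elem (a : P → ℕ) (chi : P → P → Bool) (M : ℕ) (c0 : QQ a → ℤ) (v : QQ a → ℝ) :
    (QQ a → ℤ) → (QQ a → ℝ) :=
  fun c => ∑ S ∈ (bd a M c0).powerset, if c = reflS a S c0 then gS a chi S v else 0

end BUC
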