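import Pool.Agent.Lib.MP_b9c6dd_an.BU.Defs

/-!
# Flips of flags, top position
-/

namespace BUC

open Finset

variable {P : Type} [Fintype P] [DecidableEq P] {a : P → ℕ} {M : ℕ}

/-- the flip at the top stays in the cube -/
private def InB {m : ℕ} (t : Fin m) (e : Bool) : Prop :=
  (e = true ∧ (t : ℕ) + 1 < m) ∨ (e = false ∧ 0 < (t : ℕ))

private instance decInB {m : ℕ} (t : Fin m) (e : Bool) : Decidable (InB t e) := by
  unfold InB
  infer_instance

/-- the neighbour -/
private def st {m : ℕ} (t : Fin m) (e : Bool) : Fin m :=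
  if e = true then (if h : (t : ℕ) + 1 < m then ⟨t + 1, h⟩ else t)
  else ⟨(t : ℕ) - 1, lt_of_le_of_lt (Nat.sub_le _ _) t.2⟩

private theorem st_inB {m : ℕ} {t : Fin m} {e : Bool} (h : InB t e) : InB (st t e) (!e) := by
  rcases h with ⟨h1, h2⟩ | ⟨h1, h2⟩
  · right
    subst h1
    refine ⟨rfl, ?_⟩
    simp [st, h2]
  · left
    subst h1
    refine ⟨rfl, ?_⟩
    have := t.2
    simp only [st, Bool.false_eq_true, if_false]
    omega

private theorem st_st {m : ℕ} {t : Fin m} {e : Bool} (h : InB t e) : st (st t e) (!e) = t := by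
  rcases h with ⟨h1, h2⟩ | ⟨h1, h2⟩
  · subst h1
    apply Fin.ext
    simp [st, h2]
  · subst h1
    apply Fin.ext
    have h3 := t.2
    have h4 : (t : ℕ) - 1 + 1 < m := by omega
    simp only [st, Bool.false_eq_true, if_false, Bool.not_false, if_true, h4, dif_pos]
    omega

private theorem st_val {m : ℕ} {t : Fin m} {e : Bool} (h : InB t e) :
    (((st t e : Fin m) : ℕ) : ℤ) = ((t : ℕ) : ℤ) + (if e = true then 1 else -1) := by
  rcases h with ⟨h1, h2⟩ | ⟨h1, h2⟩
  · subst h1
    simp [st, h2]
  · subst h1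
    simp only [st, Bool.false_eq_true, if_false]
    omega

private theorem not_inB_rev {m : ℕ} {t : Fin m} {e : Bool} (h : ¬ InB t e) : ¬ InB (Fin.rev t) (!e) := by
  intro h'
  apply h
  have ht := t.2
  rcases h' with ⟨h1, h2⟩ | ⟨h1, h2⟩
  · right
    have he : e = false := by
      cases e
      · rfl
      · simp at h1
    refine ⟨he, ?_⟩
    rw [Fin.val_rev] at h2
    omega
  · left
    have he : e = true := by
      cases e
      · simp at h1
      · rfl
    refine ⟨he, ?_⟩
    rw [Fin.val_rev] at h2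
    omega

/-- the top coordinate -/
private def tq (hn : 0 < nn a) (s : Flag a M) : QQ a := s.2.2.symm ⟨nn a - 1, Nat.sub_lt hn Nat.one_pos⟩

private def ftop (hn : 0 < nn a) (s : Flag a M) : Flag a M :=
  if InB (s.1 (tq hn s)) (s.2.1 (tq hn s)) then
    (Function.update s.1 (tq hn s) (st (s.1 (tq hn s)) (s.2.1 (tq hn s))),
      Function.update s.2.1 (tq hn s) (!(s.2.1 (tq hn s))), s.2.2)
  else
    (fun q => if q.1 = (tq hn s).1 then Fin.rev (s.1 q) else s.1 q,
      fun q => if q.1 = (tq hn s).1 then !(s.2.1 q) else s.2.1 q, s.2.2)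

private theorem ftop_pos {hn : 0 < nn a} {s : Flag a M} (h : InB (s.1 (tq hn s)) (s.2.1 (tq hn s))) :
    ftop hn s = (Function.update s.1 (tq hn s) (st (s.1 (tq hn s)) (s.2.1 (tq hn s))),
      Function.update s.2.1 (tq hn s) (!(s.2.1 (tq hn s))), s.2.2) := by
  unfold ftop
  rw [if_pos h]

private theorem ftop_neg {hn : 0 < nn a} {s : Flag a M} (h : ¬ InB (s.1 (tq hn s)) (s.2.1 (tq hn s))) :
    ftop hn s = (fun q => if q.1 = (tq hn s).1 then Fin.rev (s.1 q) else s.1 q,
      fun q => if q.1 = (tq hn s).1 then !(s.2.1 q) else s.2.1 q, s.2.2) := by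
  unfold ftop
  rw [if_neg h]

private theorem ftop_perm (hn : 0 < nn a) (s : Flag a M) : (ftop hn s).2.2 = s.2.2 := by
  unfold ftop
  split_ifs <;> rfl

private theorem tq_ftop (hn : 0 < nn a) (s : Flag a M) : tq hn (ftop hn s) = tq hn s := by
  unfold tq
  rw [ftop_perm]

private theorem ftop_bool (hn : 0 < nn a) (s : Flag a M) :
    (ftop hn s).2.1 (tq hn s) = !(s.2.1 (tq hn s)) := by
  by_cases h : InB (s.1 (tq hn s)) (s.2.1 (tq hn s))
  · rw [ftop_pos h]
    simp
  · rw [ftop_neg h]
    simp

private theorem ftop_ftop (hn : 0 < nn a) (s : Flag a M) : ftop hn (ftop hn s) = s := by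
  have hq := tq_ftop hn s
  by_cases h : InB (s.1 (tq hn s)) (s.2.1 (tq hn s))
  · have h1 : (ftop hn s).1 (tq hn s) = st (s.1 (tq hn s)) (s.2.1 (tq hn s)) := by
      rw [ftop_pos h]
      simp
    have h2 := ftop_bool hn s
    have h3 : InB ((ftop hn s).1 (tq hn (ftop hn s))) ((ftop hn s).2.1 (tq hn (ftop hn s))) := by
      rw [hq, h1, h2]
      exact st_inB h
    rw [ftop_pos h3, hq, h1, h2, st_st h, ftop_perm, Bool.not_not, ftop_pos h]
    simp
  · have h1 : (ftop hn s).1 (tq hn s) = Fin.rev (s.1 (tq hn s)) := by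
      rw [ftop_neg h]
      simp
    have h2 := ftop_bool hn s
    have h3 : ¬ InB ((ftop hn s).1 (tq hn (ftop hn s))) ((ftop hn s).2.1 (tq hn (ftop hn s))) := by
      rw [hq, h1, h2]
      exact not_inB_rev h
    rw [ftop_neg h3, hq, ftop_perm, ftop_neg h]
    refine Prod.ext ?_ (Prod.ext ?_ rfl)
    · funext q
      by_cases hk : q.1 = (tq hn s).1
      · simp [hk]
      · simp [hk]
    · funext q
      by_cases hk : q.1 = (tq hn s).1
      · simp [hk]
      · simp [hk]

private theorem ftop_ne (hn : 0 < nn a) (s : Flag a M) : ftop hn s ≠ s := by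
  intro h
  have h1 := ftop_bool hn s
  rw [h] at h1
  cases h2 : s.2.1 (tq hn s) <;> rw [h2] at h1 <;> simp at h1

private theorem top_not_lt {hn : 0 < nn a} {s : Flag a M} {j : ℕ} (hj : j < nn a) :
    ¬ (((s.2.2 (tq hn s) : Fin (nn a)) : ℕ) < j) := by
  unfold tq
  rw [Equiv.apply_symm_apply]
  show ¬ (nn a - 1 < j)
  omega

private theorem cell_top {hn : 0 < nn a} {s : Flag a M} {j : ℕ} (hj : j < nn a) :
    cell s j (tq hn s) = tc s (tq hn s) + ec s (tq hn s) := by
  unfold cell
  rw [if_neg (top_not_lt hj)]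

private theorem cell_le (s : Flag a M) (i : ℕ) (q : QQ a) : |cell s i q| ≤ 2 * (M : ℤ) := by
  have h := (s.1 q).2
  have h1 : |tc s q| ≤ 2 * (M : ℤ) - 1 := by
    unfold tc
    rw [abs_le]
    constructor <;> omega
  have h2 : |ec s q| ≤ 1 := by
    unfold ec
    split_ifs <;> simp
  unfold cell
  split_ifs
  · omega
  · exact (abs_add_le _ _).trans (by omega)

/-- Flip at the top position `n = nn a`: let `q = s.2.2.symm (n-1)`. If `|tc s q + ec s q| < 2 M`:
replace `tc q` by `tc q + 2 * ec q` (i.e. `s.1 q` by `s.1 q + ec`) and negate `s.2.1 q`; the cells `j < n` do not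
change. If `|tc s q + ec s q| = 2 M`: for all `q'` in the block `k = q.1` replace `s.1 q'` by `Fin.rev (s.1 q')`
(i.e. `tc` by `- tc`) and negate `s.2.1 q'`; the cells `j < n` are reflected in the block `k`, and they have
`|cell s j q| = 2 M`. -/
theorem flip_top (hn : 0 < nn a) : ∃ f : Flag a M → Flag a M,
    (∀ s, f (f s) = s) ∧ (∀ s, f s ≠ s) ∧
    ∀ s, (∀ j : ℕ, j < nn a → cell (f s) j = cell s j) ∨
      ∃ k : P, ∀ j : ℕ, j < nn a → OnBd a M k (cell s j) ∧ cell (f s) j = refl a k (cell s j) := by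
  refine ⟨ftop hn, ftop_ftop hn, ftop_ne hn, fun s => ?_⟩
  by_cases h : InB (s.1 (tq hn s)) (s.2.1 (tq hn s))
  · left
    intro j hj
    have h1 : (ftop hn s).1 (tq hn s) = st (s.1 (tq hn s)) (s.2.1 (tq hn s)) := by
      rw [ftop_pos h]
      simp
    have h2 := ftop_bool hn s
    funext q
    by_cases hq : q = tq hn s
    · subst hq
      have h3 := cell_top (hn := hn) (s := ftop hn s) (j := j) hj
      rw [tq_ftop] at h3
      rw [h3, cell_top hj]
      have h4 := st_val h
      unfold tc ec
      rw [h1, h2, h4]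
      cases s.2.1 (tq hn s) <;> simp <;> ring
    · have e1 : (ftop hn s).1 q = s.1 q := by
        rw [ftop_pos h]
        simp [hq]
      have e2 : (ftop hn s).2.1 q = s.2.1 q := by
        rw [ftop_pos h]
        simp [hq]
      unfold cell tc ec
      rw [e1, e2, ftop_perm]
  · right
    refine ⟨(tq hn s).1, fun j hj => ⟨⟨fun q => cell_le s j q, tq hn s, rfl, ?_⟩, ?_⟩⟩
    · rw [cell_top hj]
      have ht := (s.1 (tq hn s)).2
      unfold tc ec
      unfold InB at h
      push Not at h
      cases he : s.2.1 (tq hn s)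
      · have h2 := h.2 he
        have h3 : ((s.1 (tq hn s) : ℕ) : ℤ) = 0 := by omega
        rw [h3, if_neg (by simp), abs_of_nonpos] <;> omega
      · have h2 := h.1 he
        have h3 : ((s.1 (tq hn s) : ℕ) : ℤ) = 2 * (M : ℤ) - 1 := by omega
        rw [h3, if_pos rfl, abs_of_nonneg] <;> omega
    · funext q
      unfold refl
      by_cases hk : q.1 = (tq hn s).1
      · have e1 : (ftop hn s).1 q = Fin.rev (s.1 q) := by
          rw [ftop_neg h]
          simp [hk]
        have e2 : (ftop hn s).2.1 q = !(s.2.1 q) := by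
          rw [ftop_neg h]
          simp [hk]
        have ht := (s.1 q).2
        have e3 : tc (ftop hn s) q = - tc s q := by
          unfold tc
          rw [e1, Fin.val_rev]
          omega
        have e4 : ec (ftop hn s) q = - ec s q := by
          unfold ec
          rw [e2]
          cases s.2.1 q <;> simp
        rw [if_pos hk]
        unfold cell
        rw [e3, e4, ftop_perm]
        split_ifs
        · rfl
        · ring
      · have e1 : (ftop hn s).1 q = s.1 q := by
          rw [ftop_neg h]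
          simp [hk]
        have e2 : (ftop hn s).2.1 q = s.2.1 q := by
          rw [ftop_neg h]
          simp [hk]
        rw [if_neg hk]
        unfold cell tc ec
        rw [e1, e2, ftop_perm]

end BUC
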