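import Pool.Agent.Lib.MP_b9c6dd_an.BU.FlipA
import Pool.Agent.Lib.MP_b9c6dd_an.BU.FlipB

/-!
# Flips of flags, summary
-/

namespace BUC

open Finset

variable {P : Type} [Fintype P] [DecidableEq P] {a : P → ℕ} {M : ℕ}

/-- Summary. -/
theorem exists_flip (hn : 0 < nn a) (l : Fin (nn a + 1)) : ∃ f : Flag a M → Flag a M,
    (∀ s, f (f s) = s) ∧ (∀ s, f s ≠ s) ∧
    ∀ s, (∀ j : Fin (nn a + 1), j ≠ l → cell (f s) j = cell s j) ∨
      ∃ k : P, ∀ j : Fin (nn a + 1), j ≠ l →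
        OnBd a M k (cell s j) ∧ cell (f s) j = refl a k (cell s j) := by
  rcases Nat.eq_zero_or_pos (l : ℕ) with h0 | h0
  · obtain ⟨f, h1, h2, h3⟩ := flip_zero (a := a) (M := M) hn
    refine ⟨f, h1, h2, fun s => Or.inl fun j hj => h3 s j ?_⟩
    intro h
    apply hj
    apply Fin.ext
    rw [h, h0]
  · rcases Nat.lt_or_ge (l : ℕ) (nn a) with h4 | h4
    · obtain ⟨f, h1, h2, h3⟩ := flip_mid (a := a) (M := M) (l : ℕ) h0 h4
      refine ⟨f, h1, h2, fun s => Or.inl fun j hj => h3 s j ?_⟩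
      intro h
      exact hj (Fin.ext h)
    · obtain ⟨f, h1, h2, h3⟩ := flip_top (a := a) (M := M) hn
      have h5 : (l : ℕ) = nn a := le_antisymm (Nat.lt_succ_iff.1 l.2) h4
      have h6 : ∀ j : Fin (nn a + 1), j ≠ l → (j : ℕ) < nn a := by
        intro j hj
        have h7 : (j : ℕ) ≤ nn a := Nat.lt_succ_iff.1 j.2
        rcases Nat.lt_or_ge (j : ℕ) (nn a) with h8 | h8
        · exact h8
        · exact absurd (Fin.ext ((le_antisymm h7 h8).trans h5.symm)) hj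
      refine ⟨f, h1, h2, fun s => ?_⟩
      rcases h3 s with h | ⟨k, h⟩
      · exact Or.inl fun j hj => h j (h6 j hj)
      · exact Or.inr ⟨k, fun j hj => h j (h6 j hj)⟩

end BUC
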