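import Pool.Agent.Lib.MP_b9c6dd_an.BU.Defs

/-!
# Flips of flags, positions 0 and middle
-/

namespace BUC

open Finset

variable {P : Type} [Fintype P] [DecidableEq P] {a : P → ℕ} {M : ℕ}

/-- all cells of flags are in the big cube -/
theorem cell_abs_le (s : Flag a M) (i : ℕ) (q : QQ a) : |cell s i q| ≤ 2 * (M : ℤ) := by
  have h1 : ((s.1 q : ℕ) : ℤ) < 2 * (M : ℤ) := by
    have := (s.1 q).2
    omega
  have h2 : (0 : ℤ) ≤ ((s.1 q : ℕ) : ℤ) := Int.natCast_nonneg _
  have h3 : ec s q = 1 ∨ ec s q = -1 := by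
    unfold ec
    by_cases h : s.2.1 q = true
    · left; rw [if_pos h]
    · right; rw [if_neg h]
  unfold cell tc
  rw [abs_le]
  by_cases h : ((s.2.2 q : Fin (nn a)) : ℕ) < i
  · rw [if_pos h]
    omega
  · rw [if_neg h]
    rcases h3 with h3 | h3 <;> rw [h3] <;> omega

/-- Flip at the position `0`: with `q = s.2.2.symm 0` change `s.2.1 q` into its negation. Only
`cell 0` changes. -/
theorem flip_zero (hn : 0 < nn a) : ∃ f : Flag a M → Flag a M,
    (∀ s, f (f s) = s) ∧ (∀ s, f s ≠ s) ∧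
    ∀ s (j : ℕ), j ≠ 0 → cell (f s) j = cell s j := by
  classical
  refine ⟨fun s => (s.1, Function.update s.2.1 (s.2.2.symm ⟨0, hn⟩) (!s.2.1 (s.2.2.symm ⟨0, hn⟩)), s.2.2),
    fun s => ?_, fun s h => ?_, fun s j hj => ?_⟩
  · obtain ⟨s1, s2, s3⟩ := s
    simp
  · have h1 := congrArg (fun t : Flag a M => t.2.1 (s.2.2.symm ⟨0, hn⟩)) h
    simp at h1
  · funext q
    unfold cell tc ec
    simp only
    by_cases hq : ((s.2.2 q : Fin (nn a)) : ℕ) < j
    · rw [if_pos hq, if_pos hq]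
    · rw [if_neg hq, if_neg hq]
      have hne : q ≠ s.2.2.symm ⟨0, hn⟩ := by
        rintro rfl
        rw [Equiv.apply_symm_apply] at hq
        simp at hq
        exact hj hq
      have h2 : Function.update s.2.1 (s.2.2.symm ⟨0, hn⟩) (!s.2.1 (s.2.2.symm ⟨0, hn⟩)) q = s.2.1 q :=
        Function.update_of_ne hne _ _
      simp only [h2]

/-- Flip at a middle position `l`: compose the bijection with `Equiv.swap (l-1) l`. -/
theorem flip_mid (l : ℕ) (hl : 0 < l) (hl' : l < nn a) : ∃ f : Flag a M → Flag a M,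
    (∀ s, f (f s) = s) ∧ (∀ s, f s ≠ s) ∧
    ∀ s (j : ℕ), j ≠ l → cell (f s) j = cell s j := by
  classical
  refine ⟨fun s => (s.1, s.2.1, s.2.2.trans (Equiv.swap ⟨l - 1, by omega⟩ ⟨l, hl'⟩)),
    fun s => ?_, fun s h => ?_, fun s j hj => ?_⟩
  · obtain ⟨s1, s2, s3⟩ := s
    simp only [Prod.mk.injEq, true_and]
    ext q
    simp
  · have h1 := congrArg (fun t : Flag a M => ((t.2.2 (s.2.2.symm ⟨l, hl'⟩) : Fin (nn a)) : ℕ)) h
    simp at h1
    omega
  · funext q
    unfold cell tc ec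
    simp only
    have key : (((s.2.2.trans (Equiv.swap ⟨l - 1, by omega⟩ ⟨l, hl'⟩)) q : Fin (nn a)) : ℕ) < j ↔
        ((s.2.2 q : Fin (nn a)) : ℕ) < j := by
      rw [Equiv.trans_apply]
      by_cases h1 : s.2.2 q = ⟨l - 1, by omega⟩
      · rw [h1, Equiv.swap_apply_left]
        simp only
        omega
      · by_cases h2 : s.2.2 q = ⟨l, hl'⟩
        · rw [h2, Equiv.swap_apply_right]
          simp only
          omega
        · rw [Equiv.swap_apply_of_ne_of_ne h1 h2]
    by_cases hq : ((s.2.2 q : Fin (nn a)) : ℕ) < j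
    · rw [if_pos hq, if_pos (key.2 hq)]
    · rw [if_neg hq, if_neg (fun h => hq (key.1 h))]

end BUC
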