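import Mathlib

/-!
# Generic directions for finitely many determinants
-/

namespace BUC

open Finset Filter Topology

theorem Poly_aux {κ : Type*} [Fintype κ] [DecidableEq κ] (A B : Matrix κ κ ℝ)
    (h : Matrix.det ((Polynomial.X : Polynomial ℝ) • B.map Polynomial.C + A.map Polynomial.C) ≠ 0) :
    {t : ℝ | (A + t • B).det = 0}.Finite := by
  refine (Polynomial.finite_setOf_isRoot h).subset fun t ht => ?_
  show Polynomial.eval t _ = 0
  have h1 := RingHom.map_det (Polynomial.evalRingHom t)
    ((Polynomial.X : Polynomial ℝ) • B.map Polynomial.C + A.map Polynomial.C)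
  have h2 : (Polynomial.evalRingHom t).mapMatrix
      ((Polynomial.X : Polynomial ℝ) • B.map Polynomial.C + A.map Polynomial.C) = A + t • B := by
    ext i j
    simp [Matrix.map_apply, add_comm]
    ring
  rw [h2] at h1
  have h3 : (A + t • B).det = 0 := ht
  rw [h3] at h1
  exact h1

/-- If `det B ≠ 0` then `det (A + t B)` is a nonzero polynomial in `t` (leading coefficient `det B`, see
`Polynomial.coeff_det_X_add_C_card`), so it has finitely many zeros. -/
theorem det_finite_right {κ : Type*} [Fintype κ] [DecidableEq κ] (A B : Matrix κ κ ℝ)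
    (hB : B.det ≠ 0) : {t : ℝ | (A + t • B).det = 0}.Finite := by
  refine Poly_aux A B fun h => hB ?_
  rw [← Polynomial.coeff_det_X_add_C_card B A, h, Polynomial.coeff_zero]

/-- If `det A ≠ 0` then `det (A + t B)` is a nonzero polynomial in `t` (constant coefficient `det A`, see
`Polynomial.coeff_det_X_add_C_zero`), so it has finitely many zeros. -/
theorem det_finite_left {κ : Type*} [Fintype κ] [DecidableEq κ] (A B : Matrix κ κ ℝ)
    (hA : A.det ≠ 0) : {t : ℝ | (A + t • B).det = 0}.Finite := by
  refine Poly_aux A B fun h => hA ?_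
  rw [← Polynomial.coeff_det_X_add_C_zero B A, h, Polynomial.coeff_zero]

/-- One direction which is good for all conditions. Induction on `C`: from `u` good for `C` and `u'` good for the new
condition `c`, take `u + t • u'` with `t` outside the finitely many bad values (`det_finite_left` for the old
conditions, `det_finite_right` for the new one); `ℝ` is infinite. -/
theorem generic_dir {W ι κ : Type*} [AddCommGroup W] [Module ℝ W] [Fintype κ] [DecidableEq κ]
    (C : Finset ι) (L : ι → W →ₗ[ℝ] Matrix κ κ ℝ) (h : ∀ c ∈ C, ∃ u, (L c u).det ≠ 0) :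
    ∃ u, ∀ c ∈ C, (L c u).det ≠ 0 := by
  classical
  induction C using Finset.induction_on with
  | empty => exact ⟨0, fun c hc => absurd hc (notMem_empty c)⟩
  | insert c C hc ih =>
    obtain ⟨u, hu⟩ := ih fun c' hc' => h c' (mem_insert_of_mem hc')
    obtain ⟨u', hu'⟩ := h c (mem_insert_self c C)
    have hfin : ({t : ℝ | (L c u + t • L c u').det = 0} ∪
        ⋃ c' ∈ C, {t : ℝ | (L c' u + t • L c' u').det = 0}).Finite := by
      refine (det_finite_right _ _ hu').union ?_
      exact C.finite_toSet.biUnion fun c' hc' => det_finite_left _ _ (hu c' hc')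
    obtain ⟨t, ht⟩ := hfin.exists_notMem
    simp only [Set.mem_union, Set.mem_iUnion, not_or, not_exists] at ht
    refine ⟨u + t • u', fun c' hc' => ?_⟩
    rw [map_add, map_smul]
    rcases mem_insert.1 hc' with rfl | hc'
    · exact ht.1
    · exact ht.2 c' hc'

/-- Perturbation: `w + t • u` is good for all small `t ≠ 0`. -/
theorem generic_pert {W ι κ : Type*} [AddCommGroup W] [Module ℝ W] [Fintype κ] [DecidableEq κ]
    (C : Finset ι) (L : ι → W →ₗ[ℝ] Matrix κ κ ℝ) (h : ∀ c ∈ C, ∃ u, (L c u).det ≠ 0) :
    ∃ u : W, ∀ w : W, ∀ᶠ t in 𝓝[≠] (0 : ℝ), ∀ c ∈ C, (L c (w + t • u)).det ≠ 0 := by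
  obtain ⟨u, hu⟩ := generic_dir C L h
  refine ⟨u, fun w => ?_⟩
  refine (Filter.eventually_all_finset C).2 fun c hc => ?_
  have hfin := det_finite_right (L c w) (L c u) (hu c hc)
  have h1 := (nhdsNE_le_cofinite (0 : ℝ)) hfin.compl_mem_cofinite
  refine Filter.mem_of_superset h1 fun t ht => ?_
  show (L c (w + t • u)).det ≠ 0
  rw [map_add, map_smul]
  exact ht

end BUC
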