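import Pool.Agent.Lib.MP_b9c6dd_an.BU.GenEB
import Pool.Agent.Lib.MP_b9c6dd_an.BU.Poly

/-!
# Generic admissible perturbations
-/

namespace BUC

open Finset Filter Topology

variable {P : Type} [Fintype P] [DecidableEq P]

/-- Main statement. `u0`, `u1` are admissible, and every pair `w0 + t u0`, `w1 + t u1` of admissible maps is generic for all
small `t ≠ 0` (`generic_pert` on the submodule `WW`, with `LL` restricted to it). -/
theorem exists_generic (a : P → ℕ) (chi : P → P → Bool) (M : ℕ) (hM : 1 ≤ M) :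
    ∃ u0 u1 : (QQ a → ℤ) → (QQ a → ℝ), Adm a chi M u0 ∧ Adm a chi M u1 ∧
      ∀ w0 w1, Adm a chi M w0 → Adm a chi M w1 → ∀ᶠ t in 𝓝[≠] (0 : ℝ),
        ∀ (s : Flag a M) (k : Fin (nn a + 1)), Gen (xv (w0 + t • u0) (w1 + t • u1) s k) := by
  classical
  obtain ⟨u, hu⟩ := generic_pert (W := WW a chi M)
    (Finset.univ : Finset (Flag a M × Fin (nn a + 1) × (QQ a ↪ Option (Fin (nn a + 1)))))
    (fun c => (LL a chi M c).comp (WW a chi M).subtype)
    (by
      intro c _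
      obtain ⟨w, hw, hw1⟩ := LL_ne_zero a chi M hM c
      exact ⟨⟨w, hw⟩, hw1⟩)
  obtain ⟨⟨u0, u1⟩, hu0, hu1⟩ := u
  refine ⟨u0, u1, hu0, hu1, fun w0 w1 h0 h1 => ?_⟩
  filter_upwards [hu ⟨(w0, w1), h0, h1⟩] with t ht s k
  exact gen_of_det a chi M (w0 + t • u0, w1 + t • u1) s k fun σ => ht (s, k, σ) (Finset.mem_univ _)

end BUC
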