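import Pool.Agent.Lib.MP_b9c6dd_an.BU.Elem

/-!
# Spaces of admissible pairs, matrices
-/

namespace BUC

open Finset Filter Topology

variable {P : Type} [Fintype P] [DecidableEq P]

/-- The pairs of admissible maps. -/
def WW (a : P → ℕ) (chi : P → P → Bool) (M : ℕ) :
    Submodule ℝ (((QQ a → ℤ) → (QQ a → ℝ)) × ((QQ a → ℤ) → (QQ a → ℝ))) where
  carrier := {w | Adm a chi M w.1 ∧ Adm a chi M w.2}
  add_mem' := by
    rintro w w' ⟨h1, h2⟩ ⟨h1', h2'⟩
    refine ⟨fun k c hc => ?_, fun k c hc => ?_⟩
    · have e1 := h1 k c hc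
      have e2 := h1' k c hc
      funext q
      simp only [Prod.fst_add, Pi.add_apply, e1, e2, gk]
      split_ifs <;> ring
    · have e1 := h2 k c hc
      have e2 := h2' k c hc
      funext q
      simp only [Prod.snd_add, Pi.add_apply, e1, e2, gk]
      split_ifs <;> ring
  zero_mem' := by
    refine ⟨fun k c _ => ?_, fun k c _ => ?_⟩ <;>
    · funext q
      simp [gk]
  smul_mem' := by
    rintro r w ⟨h1, h2⟩
    refine ⟨fun k c hc => ?_, fun k c hc => ?_⟩
    · have e1 := h1 k c hc
      funext q
      simp only [Prod.smul_fst, Pi.smul_apply, e1, gk, smul_eq_mul]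
      split_ifs <;> ring
    · have e1 := h2 k c hc
      funext q
      simp only [Prod.smul_snd, Pi.smul_apply, e1, gk, smul_eq_mul]
      split_ifs <;> ring

theorem aux_GenEA_add {a : P → ℕ} {M : ℕ} (w0 w1 w0' w1' : (QQ a → ℤ) → (QQ a → ℝ)) (s : Flag a M)
    (k : Fin (nn a + 1)) (o : Option (Fin (nn a + 1))) (q : QQ a) :
    xv (w0 + w0') (w1 + w1') s k o q = xv w0 w1 s k o q + xv w0' w1' s k o q := by
  cases o with
  | none => rfl
  | some j =>
    simp only [xv, mixv, Option.elim]
    split_ifs <;> rfl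

theorem aux_GenEA_smul {a : P → ℕ} {M : ℕ} (r : ℝ) (w0 w1 : (QQ a → ℤ) → (QQ a → ℝ)) (s : Flag a M)
    (k : Fin (nn a + 1)) (o : Option (Fin (nn a + 1))) (q : QQ a) :
    xv (r • w0) (r • w1) s k o q = r * xv w0 w1 s k o q := by
  cases o with
  | none => rfl
  | some j =>
    simp only [xv, mixv, Option.elim]
    split_ifs <;> rfl

/-- The matrix of `nn a` chosen vectors among the `nn a + 2` vectors `xv`. -/
def LL (a : P → ℕ) (chi : P → P → Bool) (M : ℕ)
    (c : Flag a M × Fin (nn a + 1) × (QQ a ↪ Option (Fin (nn a + 1)))) :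
    (((QQ a → ℤ) → (QQ a → ℝ)) × ((QQ a → ℤ) → (QQ a → ℝ))) →ₗ[ℝ] Matrix (QQ a) (QQ a) ℝ where
  toFun w := fun q q' => xv w.1 w.2 c.1 c.2.1 (c.2.2 q) q'
  map_add' := by
    intro w w'
    funext q q'
    exact aux_GenEA_add w.1 w.2 w'.1 w'.2 c.1 c.2.1 (c.2.2 q) q'
  map_smul' := by
    intro r w
    funext q q'
    exact aux_GenEA_smul r w.1 w.2 c.1 c.2.1 (c.2.2 q) q'

/-- Each determinant is nonzero for a suitable admissible pair: make the chosen vectors the unit vectors
(`exists_adm_values` for `w0` with the prescribed values at the cells `j`, where `some j` is a chosen label with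
`¬ j < k`, and for `w1` at the cells `j` with `j < k` and at the cell `k` for the label `none`). -/
theorem LL_ne_zero (a : P → ℕ) (chi : P → P → Bool) (M : ℕ) (hM : 1 ≤ M)
    (c : Flag a M × Fin (nn a + 1) × (QQ a ↪ Option (Fin (nn a + 1)))) :
    ∃ w ∈ WW a chi M, (LL a chi M c w).det ≠ 0 := by
  classical
  obtain ⟨s, k, em⟩ := c
  let u : Option (Fin (nn a + 1)) → (QQ a → ℝ) := fun o =>
    if h : ∃ q, em q = o then Pi.single h.choose (1 : ℝ) else 0
  have hu : ∀ q, u (em q) = Pi.single q (1 : ℝ) := by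
    intro q
    have h : ∃ q', em q' = em q := ⟨q, rfl⟩
    have h1 : h.choose = q := em.injective h.choose_spec
    simp only [u, dif_pos h, h1]
  obtain ⟨w0, hw0, e0⟩ := exists_adm_values a chi M hM s (fun j => u (some j))
  obtain ⟨w1, hw1, e1⟩ := exists_adm_values a chi M hM s (fun j => if j = k then u none else u (some j))
  refine ⟨(w0, w1), ⟨hw0, hw1⟩, ?_⟩
  have h : LL a chi M (s, k, em) (w0, w1) = 1 := by
    funext q q'
    have h1 : xv w0 w1 s k (em q) = u (em q) := by
      cases hq : em q with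
      | none =>
        simp only [xv, Option.elim]
        rw [e1 k]
        simp
      | some j =>
        simp only [xv, Option.elim, mixv]
        split_ifs with hj
        · rw [e1 j]
          have : j ≠ k := by
            intro h
            rw [h] at hj
            exact lt_irrefl _ hj
          simp [this]
        · exact e0 j
    have h2 : LL a chi M (s, k, em) (w0, w1) q q' = xv w0 w1 s k (em q) q' := rfl
    rw [h2, h1, hu, Matrix.one_apply, Pi.single_apply]
    simp only [eq_comm]
  rw [h, Matrix.det_one]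
  exact one_ne_zero

end BUC
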