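import Pool.Agent.Lib.MP_b9c6dd_an.BU.GenEA

/-!
# Genericity from determinants
-/

namespace BUC

open Finset Filter Topology

variable {P : Type} [Fintype P] [DecidableEq P]

/-- Nonzero determinants give genericity: a relation with two vanishing coefficients `i ≠ j` is a relation between
`nn a` of the vectors (there is an embedding `QQ a ↪ Option (Fin (nn a + 1))` with range the complement of
`{i, j}`), so it is trivial (`Matrix.det ≠ 0` gives linear independence of the rows). -/
theorem gen_of_det (a : P → ℕ) (chi : P → P → Bool) (M : ℕ)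
    (w : ((QQ a → ℤ) → (QQ a → ℝ)) × ((QQ a → ℤ) → (QQ a → ℝ))) (s : Flag a M)
    (k : Fin (nn a + 1))
    (h : ∀ σ : QQ a ↪ Option (Fin (nn a + 1)), (LL a chi M (s, k, σ) w).det ≠ 0) :
    Gen (xv w.1 w.2 s k) := by
  intro l hl i j hij hi hj
  have hcard : Fintype.card (QQ a) = Fintype.card {o // o ∈ (({i, j} : Finset (Option (Fin (nn a + 1))))ᶜ)} := by
    rw [Fintype.card_coe, Finset.card_compl, Finset.card_pair hij, Fintype.card_option, Fintype.card_fin]
    rfl
  let e := Fintype.equivOfCardEq hcard
  let σ : QQ a ↪ Option (Fin (nn a + 1)) := ⟨fun q => (e q).1, fun q q' hq => e.injective (Subtype.ext hq)⟩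
  have hrange : ∀ o, o ∉ Set.range σ → l o = 0 := by
    intro o ho
    by_cases ho' : o ∈ (({i, j} : Finset (Option (Fin (nn a + 1))))ᶜ)
    · exact absurd ⟨e.symm ⟨o, ho'⟩, by simp [σ]⟩ ho
    · rw [Finset.mem_compl, not_not, Finset.mem_insert, Finset.mem_singleton] at ho'
      rcases ho' with rfl | rfl
      · exact hi
      · exact hj
  have hsum : ∑ q, l (σ q) • xv w.1 w.2 s k (σ q) = 0 := by
    rw [← hl]
    refine Fintype.sum_of_injective σ σ.injective _ _ (fun o ho => ?_) (fun q => rfl)
    rw [hrange o ho, zero_smul]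
  have hv : Matrix.vecMul (fun q => l (σ q)) (LL a chi M (s, k, σ) w) = 0 := by
    funext q'
    have h1 := congrFun hsum q'
    rw [Finset.sum_apply] at h1
    simp only [Pi.smul_apply, smul_eq_mul] at h1
    exact h1
  have h0 := Matrix.eq_zero_of_vecMul_eq_zero (h σ) hv
  funext o
  by_cases ho : o ∈ Set.range σ
  · obtain ⟨q, rfl⟩ := ho
    exact congrFun h0 q
  · exact hrange o ho

end BUC
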