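import Pool.Agent.Lib.MP_b9c6dd_an.BU.Defs

/-!
# Removing one vector
-/

namespace BUC

open Finset

variable {P : Type} [Fintype P] [DecidableEq P] {a : P → ℕ} {chi : P → P → Bool} {M : ℕ}

/-- Removing the extra vector: `none` removed leaves `mixv k`. -/
theorem HZd_xv_none (w0 w1 : (QQ a → ℤ) → (QQ a → ℝ)) (s : Flag a M) (k : Fin (nn a + 1)) :
    HZd (xv w0 w1 s k) none ↔ HZ (mixv w0 w1 s (k : ℕ)) := by
  constructor
  · rintro ⟨l, h0, h1, h2, h3⟩
    rw [Fintype.sum_option, h2] at h1 h3
    refine ⟨fun j => l (some j), fun j => h0 _, by simpa using h1, ?_⟩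
    rw [zero_smul, zero_add] at h3
    exact h3
  · rintro ⟨l, h0, h1, h2⟩
    refine ⟨fun o => Option.elim o 0 l, ?_, ?_, rfl, ?_⟩
    · rintro (_ | j)
      · exact le_rfl
      · exact h0 j
    · rw [Fintype.sum_option]
      simpa using h1
    · rw [Fintype.sum_option]
      simp only [Option.elim, zero_smul, zero_add]
      exact h2

theorem InvA_mixv_self (w0 w1 : (QQ a → ℤ) → (QQ a → ℝ)) (s : Flag a M) (k : Fin (nn a + 1)) :
    mixv w0 w1 s ((k : ℕ) + 1) k = w1 (cell s k) := by
  unfold mixv
  rw [if_pos (Nat.lt_succ_self _)]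

theorem InvA_mixv_ne (w0 w1 : (QQ a → ℤ) → (QQ a → ℝ)) (s : Flag a M) {j k : Fin (nn a + 1)}
    (h : j ≠ k) : mixv w0 w1 s ((k : ℕ) + 1) j = mixv w0 w1 s (k : ℕ) j := by
  unfold mixv
  have h1 : (j : ℕ) ≠ (k : ℕ) := fun e => h (Fin.ext e)
  have h2 : ((j : ℕ) < (k : ℕ) + 1) ↔ ((j : ℕ) < (k : ℕ)) := by omega
  by_cases h3 : (j : ℕ) < (k : ℕ)
  · rw [if_pos h3, if_pos (h2.2 h3)]
  · rw [if_neg h3, if_neg (fun h4 => h3 (h2.1 h4))]

/-- `some k` removed leaves `mixv (k+1)` (the vector at `k` is now `w1 (cell s k)`, stored at `none`). -/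
theorem HZd_xv_self (w0 w1 : (QQ a → ℤ) → (QQ a → ℝ)) (s : Flag a M) (k : Fin (nn a + 1)) :
    HZd (xv w0 w1 s k) (some k) ↔ HZ (mixv w0 w1 s ((k : ℕ) + 1)) := by
  constructor
  · rintro ⟨l, h0, h1, h2, h3⟩
    rw [Fintype.sum_option] at h1 h3
    refine ⟨fun j => if j = k then l none else l (some j), ?_, ?_, ?_⟩
    · intro j
      dsimp only
      split_ifs
      · exact h0 _
      · exact h0 _
    · rw [← h1]
      have e : ∀ j : Fin (nn a + 1), (if j = k then l none else l (some j))
          = (if j = k then l none else 0) + l (some j) := by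
        intro j
        by_cases hj : j = k
        · subst hj
          rw [if_pos rfl, if_pos rfl, h2, add_zero]
        · rw [if_neg hj, if_neg hj, zero_add]
      rw [Finset.sum_congr rfl fun j _ => e j, Finset.sum_add_distrib, Finset.sum_ite_eq' univ k]
      simp
    · have e : ∀ j : Fin (nn a + 1),
          (if j = k then l none else l (some j)) • mixv w0 w1 s ((k : ℕ) + 1) j
          = (if j = k then l none • w1 (cell s k) else 0) + l (some j) • mixv w0 w1 s (k : ℕ) j := by
        intro j
        by_cases hj : j = k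
        · subst hj
          rw [if_pos rfl, if_pos rfl, h2, zero_smul, add_zero, InvA_mixv_self]
        · rw [if_neg hj, if_neg hj, zero_add, InvA_mixv_ne w0 w1 s hj]
      rw [Finset.sum_congr rfl fun j _ => e j, Finset.sum_add_distrib, Finset.sum_ite_eq' univ k,
        if_pos (mem_univ k)]
      exact h3
  · rintro ⟨l, h0, h1, h2⟩
    refine ⟨fun o => Option.elim o (l k) (fun j => if j = k then 0 else l j), ?_, ?_, ?_, ?_⟩
    · rintro (_ | j)
      · exact h0 k
      · show 0 ≤ (if j = k then 0 else l j)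
        split_ifs
        · exact le_rfl
        · exact h0 j
    · rw [Fintype.sum_option, ← h1]
      show l k + ∑ j, (if j = k then 0 else l j) = ∑ j, l j
      have e : ∀ j : Fin (nn a + 1), l j = (if j = k then l k else 0) + (if j = k then 0 else l j) := by
        intro j
        by_cases hj : j = k
        · subst hj
          rw [if_pos rfl, if_pos rfl, add_zero]
        · rw [if_neg hj, if_neg hj, zero_add]
      rw [Finset.sum_congr rfl fun j _ => e j, Finset.sum_add_distrib, Finset.sum_ite_eq' univ k,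
        if_pos (mem_univ k)]
    · show (if k = k then (0 : ℝ) else l k) = 0
      rw [if_pos rfl]
    · rw [Fintype.sum_option]
      show l k • w1 (cell s k) + ∑ j, (if j = k then 0 else l j) • mixv w0 w1 s (k : ℕ) j = 0
      rw [← h2]
      have e : ∀ j : Fin (nn a + 1), l j • mixv w0 w1 s ((k : ℕ) + 1) j
          = (if j = k then l k • w1 (cell s k) else 0)
            + (if j = k then 0 else l j) • mixv w0 w1 s (k : ℕ) j := by
        intro j
        by_cases hj : j = k
        · subst hj
          rw [if_pos rfl, if_pos rfl, zero_smul, add_zero, InvA_mixv_self]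
        · rw [if_neg hj, if_neg hj, zero_add, InvA_mixv_ne w0 w1 s hj]
      rw [Finset.sum_congr rfl fun j _ => e j, Finset.sum_add_distrib, Finset.sum_ite_eq' univ k,
        if_pos (mem_univ k)]

end BUC
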