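import Pool.Agent.Lib.MP_b9c6dd_an.BU.Defs

/-!
# Effect of a flip
-/

namespace BUC

open Finset

variable {P : Type} [Fintype P] [DecidableEq P] {a : P → ℕ} {chi : P → P → Bool} {M : ℕ}

/-- the sign change as a linear map -/
private def invB_gk (a : P → ℕ) (chi : P → P → Bool) (k : P) : (QQ a → ℝ) →ₗ[ℝ] (QQ a → ℝ) where
  toFun := gk a chi k
  map_add' := by
    intro x y
    funext q
    show (if chi q.1 k = true then - (x + y) q else (x + y) q)
      = (if chi q.1 k = true then - x q else x q) + (if chi q.1 k = true then - y q else y q)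
    split_ifs
    · rw [Pi.add_apply]
      ring
    · rw [Pi.add_apply]
  map_smul' := by
    intro c x
    funext q
    show (if chi q.1 k = true then - (c • x) q else (c • x) q)
      = c * (if chi q.1 k = true then - x q else x q)
    split_ifs
    · rw [Pi.smul_apply, smul_eq_mul]
      ring
    · rw [Pi.smul_apply, smul_eq_mul]

omit [Fintype P] [DecidableEq P] in
private theorem invB_gk_zero (a : P → ℕ) (chi : P → P → Bool) (k : P) (v : QQ a → ℝ)
    (h : invB_gk a chi k v = 0) : v = 0 := by
  funext q
  have h1 := congrFun h q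
  have h2 : (if chi q.1 k = true then - v q else v q) = 0 := h1
  split_ifs at h2
  · rw [Pi.zero_apply]
    linarith
  · exact h2

private theorem invB_aux {ι V : Type*} [Fintype ι] [AddCommGroup V] [Module ℝ V] {x y : ι → V} {i : ι}
    (T : V →ₗ[ℝ] V) (hT : ∀ v, T v = 0 → v = 0) (h : ∀ o, o ≠ i → y o = T (x o)) :
    HZd y i ↔ HZd x i := by
  have key : ∀ l : ι → ℝ, l i = 0 → ∑ j, l j • y j = T (∑ j, l j • x j) := by
    intro l hl
    rw [map_sum]
    refine Finset.sum_congr rfl fun j _ => ?_
    by_cases hj : j = i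
    · rw [hj, hl, zero_smul, zero_smul, map_zero]
    · rw [h j hj, map_smul]
  constructor
  · rintro ⟨l, h1, h2, h3, h4⟩
    rw [key l h3] at h4
    exact ⟨l, h1, h2, h3, hT _ h4⟩
  · rintro ⟨l, h1, h2, h3, h4⟩
    refine ⟨l, h1, h2, h3, ?_⟩
    rw [key l h3, h4, map_zero]

/-- A flip at `l ≠ k` does not change whether `0` is a convex combination of the vectors other than `some l`:
the vectors are the same, or they are all changed by the linear involution `gk a chi k'`
(use admissibility of `w0` and `w1`). -/
theorem HZd_flip {w0 w1 : (QQ a → ℤ) → (QQ a → ℝ)} (h0 : Adm a chi M w0) (h1 : Adm a chi M w1)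
    (s s' : Flag a M) (k l : Fin (nn a + 1)) (hkl : k ≠ l)
    (h : (∀ j : Fin (nn a + 1), j ≠ l → cell s' j = cell s j) ∨
      ∃ k' : P, ∀ j : Fin (nn a + 1), j ≠ l →
        OnBd a M k' (cell s j) ∧ cell s' j = refl a k' (cell s j)) :
    HZd (xv w0 w1 s' k) (some l) ↔ HZd (xv w0 w1 s k) (some l) := by
  rcases h with h | ⟨k', h⟩
  · refine invB_aux LinearMap.id (fun v hv => hv) (fun o ho => ?_)
    cases o with
    | none =>
      show w1 (cell s' k) = w1 (cell s k)
      rw [h k hkl]
    | some j =>
      have hj : j ≠ l := fun e => ho (by rw [e])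
      show (if (j : ℕ) < k then w1 (cell s' j) else w0 (cell s' j))
        = (if (j : ℕ) < k then w1 (cell s j) else w0 (cell s j))
      rw [h j hj]
  · refine invB_aux (invB_gk a chi k') (invB_gk_zero a chi k') (fun o ho => ?_)
    cases o with
    | none =>
      show w1 (cell s' k) = gk a chi k' (w1 (cell s k))
      rw [(h k hkl).2]
      exact h1 k' _ (h k hkl).1
    | some j =>
      have hj : j ≠ l := fun e => ho (by rw [e])
      show (if (j : ℕ) < k then w1 (cell s' j) else w0 (cell s' j))
        = gk a chi k' (if (j : ℕ) < k then w1 (cell s j) else w0 (cell s j))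
      rw [(h j hj).2]
      by_cases hjk : (j : ℕ) < k
      · rw [if_pos hjk, if_pos hjk]
        exact h1 k' _ (h j hj).1
      · rw [if_neg hjk, if_neg hjk]
        exact h0 k' _ (h j hj).1

end BUC
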