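import Pool.Agent.Lib.MP_b9c6dd_an.BU.LemG
import Pool.Agent.Lib.MP_b9c6dd_an.BU.Flip
import Pool.Agent.Lib.MP_b9c6dd_an.BU.InvA
import Pool.Agent.Lib.MP_b9c6dd_an.BU.InvB

/-!
# Invariance of the number of flags mod 2
-/

namespace BUC

open Finset

variable {P : Type} [Fintype P] [DecidableEq P] {a : P → ℕ} {chi : P → P → Bool} {M : ℕ}

open Classical in
theorem Inv_flip {w0 w1 : (QQ a → ℤ) → (QQ a → ℝ)} (h0 : Adm a chi M w0) (h1 : Adm a chi M w1)
    (k l : Fin (nn a + 1)) (hkl : k ≠ l) :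
    ∑ s : Flag a M, (if HZd (xv w0 w1 s k) (some l) then (1 : ZMod 2) else 0) = 0 := by
  have hn : 0 < nn a := by
    rcases Nat.eq_zero_or_pos (nn a) with h | h
    · exfalso
      apply hkl
      have h2 := k.2
      have h3 := l.2
      apply Fin.ext
      omega
    · exact h
  obtain ⟨f, hf1, hf2, hf3⟩ := exists_flip (a := a) (M := M) hn l
  refine Finset.sum_involution (fun s _ => f s) (fun s _ => ?_) (fun s _ _ => hf2 s)
    (fun s _ => Finset.mem_univ _) (fun s _ => hf1 s)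
  have h := HZd_flip h0 h1 s (f s) k l hkl (hf3 s)
  simp only [h]
  exact CharTwo.add_self_eq_zero _

open Classical in
theorem Inv_none (w0 w1 : (QQ a → ℤ) → (QQ a → ℝ)) (k : Fin (nn a + 1)) :
    ∑ s : Flag a M, (if HZd (xv w0 w1 s k) none then (1 : ZMod 2) else 0) =
      NN (a := a) (M := M) w0 w1 (k : ℕ) := by
  unfold NN
  refine Finset.sum_congr rfl fun s _ => ?_
  simp only [HZd_xv_none]

open Classical in
theorem Inv_self (w0 w1 : (QQ a → ℤ) → (QQ a → ℝ)) (k : Fin (nn a + 1)) :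
    ∑ s : Flag a M, (if HZd (xv w0 w1 s k) (some k) then (1 : ZMod 2) else 0) =
      NN (a := a) (M := M) w0 w1 ((k : ℕ) + 1) := by
  unfold NN
  refine Finset.sum_congr rfl fun s _ => ?_
  simp only [HZd_xv_self]

/-- The step `k → k+1`: sum Lemma G over all flags; the terms `some l`, `l ≠ k`, cancel by the involution
`exists_flip` (`Finset.sum_involution`; note that `k ≠ l` in `Fin (nn a + 1)` forces `0 < nn a`). -/
theorem NN_step {w0 w1 : (QQ a → ℤ) → (QQ a → ℝ)} (h0 : Adm a chi M w0) (h1 : Adm a chi M w1)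
    (hgen : ∀ (s : Flag a M) (k : Fin (nn a + 1)), Gen (xv w0 w1 s k)) (k : Fin (nn a + 1)) :
    (NN (a := a) (M := M) w0 w1 (k : ℕ) : ZMod 2) = NN (a := a) (M := M) w0 w1 ((k : ℕ) + 1) := by
  classical
  have hG : ∀ s : Flag a M, (∑ o, if HZd (xv w0 w1 s k) o then (1 : ZMod 2) else 0) = 0 := by
    intro s
    refine lemG (xv w0 w1 s k) ?_ (hgen s k)
    rw [Fintype.card_option, Fintype.card_fin, Module.finrank_fintype_fun_eq_card]
  have h2 : ∑ s : Flag a M, ∑ o, (if HZd (xv w0 w1 s k) o then (1 : ZMod 2) else 0) = 0 :=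
    Finset.sum_eq_zero fun s _ => hG s
  rw [Finset.sum_comm, Fintype.sum_option, Inv_none, Finset.sum_eq_single k
    (fun l _ hl => Inv_flip h0 h1 k l (Ne.symm hl)) (fun h => absurd (Finset.mem_univ k) h),
    Inv_self] at h2
  have h3 := CharTwo.add_self_eq_zero (NN (a := a) (M := M) w0 w1 ((k : ℕ) + 1))
  exact add_right_cancel (h2.trans h3.symm)

/-- Invariance. -/
theorem NN_inv {w0 w1 : (QQ a → ℤ) → (QQ a → ℝ)} (h0 : Adm a chi M w0) (h1 : Adm a chi M w1)
    (hgen : ∀ (s : Flag a M) (k : Fin (nn a + 1)), Gen (xv w0 w1 s k)) :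
    (NN (a := a) (M := M) w0 w1 0 : ZMod 2) = NN (a := a) (M := M) w0 w1 (nn a + 1) := by
  have h : ∀ j : ℕ, j ≤ nn a + 1 →
      NN (a := a) (M := M) w0 w1 0 = NN (a := a) (M := M) w0 w1 j := by
    intro j
    induction j with
    | zero => intro _; rfl
    | succ j ih =>
      intro hj
      rw [ih (by omega)]
      exact NN_step h0 h1 hgen ⟨j, by omega⟩
  exact h _ le_rfl

end BUC
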