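import Pool.Agent.Lib.MP_b9c6dd_an.BU.LemGB

/-!
# Lemma G: A+2 vectors in an A-dimensional space, any A of them independent
-/

namespace BUC

open Finset

open Classical in
/-- Lemma G. The set of the indices with `HZd` is empty or has exactly two elements. -/
theorem lemG {ι V : Type*} [Fintype ι] [DecidableEq ι] [AddCommGroup V] [Module ℝ V]
    [FiniteDimensional ℝ V] (x : ι → V) (hcard : Fintype.card ι = Module.finrank ℝ V + 2)
    (hgen : Gen x) : (∑ i, if HZd x i then (1 : ZMod 2) else 0) = 0 := by
  by_cases h : ∃ i, HZd x i
  · obtain ⟨i, hi⟩ := h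
    obtain ⟨i', hne, hi', huniq⟩ := exists_unique_partner x hcard hgen i hi
    have hset : (univ.filter fun k => HZd x k) = {i, i'} := by
      ext k
      rw [mem_filter, mem_insert, mem_singleton]
      constructor
      · rintro ⟨-, hk⟩
        by_cases hki : k = i
        · exact Or.inl hki
        · exact Or.inr (huniq k hki hk)
      · rintro (rfl | rfl)
        · exact ⟨mem_univ _, hi⟩
        · exact ⟨mem_univ _, hi'⟩
    rw [← sum_filter, hset, sum_pair hne.symm]
    decide
  · exact sum_eq_zero fun i _ => if_neg fun hi => h ⟨i, hi⟩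

end BUC
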