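import Pool.Agent.Lib.MP_b9c6dd_an.BU.Defs

/-!
# Lemma G, part A
-/

namespace BUC

open Finset

/-- There is a relation with coefficient `1` at `i`.
Proof: `L = ker (l ↦ ∑ l j • x j)` has dimension at least 2 (`LinearMap.finrank_range_add_finrank_ker`).
If all members of `L` vanish at `i`, pick `j ≠ i` (the type has at least two elements): by `Gen` the
map `L → ℝ, l ↦ l j` is injective, so `L` has dimension at most 1. Normalise. -/
theorem exists_rel {ι V : Type*} [Fintype ι] [DecidableEq ι] [AddCommGroup V] [Module ℝ V]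
    [FiniteDimensional ℝ V] (x : ι → V) (hcard : Fintype.card ι = Module.finrank ℝ V + 2)
    (hgen : Gen x) (i : ι) : ∃ m : ι → ℝ, ∑ j, m j • x j = 0 ∧ m i = 1 := by
  by_contra hcon
  push Not at hcon
  have hvan : ∀ m : ι → ℝ, ∑ j, m j • x j = 0 → m i = 0 := by
    intro m hm
    by_contra hmi
    refine hcon (fun j => (m i)⁻¹ * m j) ?_ (inv_mul_cancel₀ hmi)
    have : ∑ j, ((m i)⁻¹ * m j) • x j = (m i)⁻¹ • ∑ j, m j • x j := by
      rw [Finset.smul_sum]
      exact Finset.sum_congr rfl fun j _ => by rw [mul_smul]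
    rw [this, hm, smul_zero]
  have h1 := LinearMap.finrank_range_add_finrank_ker (Fintype.linearCombination ℝ x)
  have h2 : Module.finrank ℝ (LinearMap.range (Fintype.linearCombination ℝ x)) ≤
      Module.finrank ℝ V := Submodule.finrank_le _
  rw [Module.finrank_fintype_fun_eq_card, hcard] at h1
  obtain ⟨j, hj⟩ : ∃ j, j ≠ i := by
    haveI : Nontrivial ι := Fintype.one_lt_card_iff_nontrivial.1 (by omega)
    exact exists_ne i
  have h3 : Module.finrank ℝ (LinearMap.ker (Fintype.linearCombination ℝ x)) ≤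
      Module.finrank ℝ ℝ := by
    refine LinearMap.finrank_le_finrank_of_injective
      (f := (LinearMap.proj j : (ι → ℝ) →ₗ[ℝ] ℝ).comp
        (LinearMap.ker (Fintype.linearCombination ℝ x)).subtype) ?_
    rw [← LinearMap.ker_eq_bot, LinearMap.ker_eq_bot']
    rintro ⟨l, hl⟩ hlj
    have hl2 : ∑ j, l j • x j = 0 := by
      rw [LinearMap.mem_ker, Fintype.linearCombination_apply] at hl
      exact hl
    have hlj2 : l j = 0 := hlj
    exact Subtype.ext (hgen l hl2 i j hj.symm (hvan l hl2) hlj2)
  rw [Module.finrank_self] at h3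
  omega

end BUC
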