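import Pool.Agent.Lib.MP_b9c6dd_an.BU.LemGA

/-!
# Lemma G, part B
-/

namespace BUC

open Finset

/-- If `0` is a convex combination of the `x j`, `j ≠ i`, then there is exactly one further such
index.
Proof: take `l` with `l i = 0`; all other `l j > 0` by `Gen`. Take `m` from `exists_rel`. Let `t` be
the maximum of `- m j / l j` over `j ≠ i`, attained at `i'`. Then `v = m + t • l` is a relation,
`v j ≥ 0`, `v i = 1`, `v i' = 0`; divide by its sum. If `k ≠ i` is another such index with
coefficients `l'`, then `l' i > 0` by `Gen` (`l' k = 0`); put `v' = l' / l' i`; `v' - m` is a relation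
which vanishes at `i`, hence a multiple `c • l` of `l` (`Gen` for `v' - m - c • l` with `c` chosen to
kill the coordinate `i'`); so `v' = m + c • l ≥ 0` gives `c ≥ t`, and `v' k = 0` gives
`c = - m k / l k ≤ t`; so `v' = v`; `v` vanishes at `k` and at `i'`, and `v ≠ 0`, so `k = i'`. -/
theorem exists_unique_partner {ι V : Type*} [Fintype ι] [DecidableEq ι] [AddCommGroup V]
    [Module ℝ V] [FiniteDimensional ℝ V] (x : ι → V)
    (hcard : Fintype.card ι = Module.finrank ℝ V + 2)
    (hgen : Gen x) (i : ι) (hi : HZd x i) :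
    ∃ i', i' ≠ i ∧ HZd x i' ∧ ∀ k, k ≠ i → HZd x k → k = i' := by
  obtain ⟨l, hl0, hl1, hli, hlr⟩ := hi
  have hlpos : ∀ j, j ≠ i → 0 < l j := by
    intro j hj
    refine lt_of_le_of_ne (hl0 j) fun h => ?_
    have := hgen l hlr i j hj.symm hli h.symm
    rw [this] at hl1
    simp at hl1
  obtain ⟨m, hmr, hmi⟩ := exists_rel x hcard hgen i
  have hne : (univ.erase i).Nonempty := by
    haveI : Nontrivial ι := Fintype.one_lt_card_iff_nontrivial.1 (by omega)
    obtain ⟨j, hj⟩ := exists_ne i
    exact ⟨j, by simp [hj]⟩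
  obtain ⟨i', hi', hmax⟩ := Finset.exists_max_image (univ.erase i) (fun j => - m j / l j) hne
  have hi'ne : i' ≠ i := (Finset.mem_erase.1 hi').1
  have hlip := hlpos i' hi'ne
  set t : ℝ := - m i' / l i' with ht
  have hti : m i' + t * l i' = 0 := by
    rw [ht]; field_simp; ring
  have hrel : ∀ c : ℝ, ∑ j, (m j + c * l j) • x j = 0 := by
    intro c
    have : ∑ j, (m j + c * l j) • x j = ∑ j, m j • x j + c • ∑ j, l j • x j := by
      rw [Finset.smul_sum, ← Finset.sum_add_distrib]
      exact Finset.sum_congr rfl fun j _ => by rw [add_smul, mul_smul]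
    rw [this, hmr, hlr, smul_zero, add_zero]
  refine ⟨i', hi'ne, ?_, ?_⟩
  · have hv0 : ∀ j, 0 ≤ m j + t * l j := by
      intro j
      by_cases hj : j = i
      · rw [hj, hmi, hli]; norm_num
      · have h1 := hmax j (by simp [hj])
        have h2 : - m j / l j ≤ t := h1
        rw [div_le_iff₀ (hlpos j hj)] at h2
        linarith
    have hs : 0 < ∑ j, (m j + t * l j) := by
      refine Finset.sum_pos' (fun j _ => hv0 j) ⟨i, Finset.mem_univ _, ?_⟩
      rw [hmi, hli]; norm_num
    refine ⟨fun j => (∑ j, (m j + t * l j))⁻¹ * (m j + t * l j), fun j => ?_, ?_, ?_, ?_⟩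
    · exact mul_nonneg (inv_nonneg.2 hs.le) (hv0 j)
    · rw [← Finset.mul_sum]
      exact inv_mul_cancel₀ hs.ne'
    · show (∑ j, (m j + t * l j))⁻¹ * (m i' + t * l i') = 0
      rw [hti, mul_zero]
    · have : ∑ j, ((∑ j, (m j + t * l j))⁻¹ * (m j + t * l j)) • x j =
          (∑ j, (m j + t * l j))⁻¹ • ∑ j, (m j + t * l j) • x j := by
        rw [Finset.smul_sum]
        exact Finset.sum_congr rfl fun j _ => by rw [mul_smul]
      rw [this, hrel t, smul_zero]
  · intro k hk hHk
    obtain ⟨l', hl'0, hl'1, hl'k, hl'r⟩ := hHk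
    have hl'i : 0 < l' i := by
      refine lt_of_le_of_ne (hl'0 i) fun h => ?_
      have := hgen l' hl'r k i hk hl'k h.symm
      rw [this] at hl'1
      simp at hl'1
    set v : ι → ℝ := fun j => (l' i)⁻¹ * l' j with hv
    have hvi : v i = 1 := inv_mul_cancel₀ hl'i.ne'
    have hvk : v k = 0 := by simp [hv, hl'k]
    have hv0 : ∀ j, 0 ≤ v j := fun j => mul_nonneg (inv_nonneg.2 hl'i.le) (hl'0 j)
    have hvr : ∑ j, v j • x j = 0 := by
      have : ∑ j, v j • x j = (l' i)⁻¹ • ∑ j, l' j • x j := by
        rw [Finset.smul_sum]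
        exact Finset.sum_congr rfl fun j _ => by rw [hv, mul_smul]
      rw [this, hl'r, smul_zero]
    set c : ℝ := (v i' - m i') / l i' with hc
    have hz : (fun j => v j - (m j + c * l j)) = 0 := by
      refine hgen _ ?_ i i' hi'ne.symm ?_ ?_
      · have : ∑ j, (v j - (m j + c * l j)) • x j =
            ∑ j, v j • x j - ∑ j, (m j + c * l j) • x j := by
          rw [← Finset.sum_sub_distrib]
          exact Finset.sum_congr rfl fun j _ => by rw [sub_smul]
        rw [this, hvr, hrel c, sub_zero]
      · show v i - (m i + c * l i) = 0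
        rw [hvi, hmi, hli]; ring
      · show v i' - (m i' + c * l i') = 0
        rw [hc]; field_simp; ring
    have hveq : ∀ j, v j = m j + c * l j := by
      intro j
      have := congrFun hz j
      simp only [Pi.zero_apply] at this
      linarith
    have hct : t ≤ c := by
      rw [ht, div_le_iff₀ hlip]
      have h1 := hv0 i'
      rw [hveq i'] at h1
      linarith
    have hct' : c ≤ t := by
      have h1 := hmax k (by simp [hk])
      have h2 : - m k / l k ≤ t := h1
      refine le_trans ?_ h2
      rw [le_div_iff₀ (hlpos k hk)]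
      have h3 := hvk
      rw [hveq k] at h3
      linarith
    have hcte : c = t := le_antisymm hct' hct
    have hvi' : v i' = 0 := by rw [hveq, hcte, hti]
    by_contra hki
    have := hgen v hvr k i' hki hvk hvi'
    rw [this] at hvi
    simp at hvi

end BUC
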