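import Pool.Agent.Lib.MP_b9c6dd_an.BU.MainC

/-!
# Borsuk-Ulam for products of cubes
-/

namespace BUC

open Finset Filter Topology

variable {P : Type} [Fintype P] [DecidableEq P]

/-- **Borsuk-Ulam for products of cubes**, blocks as dependent functions. -/
theorem BUP (a : P → ℕ) (chi : P → P → Bool) (hchi : ∀ k, chi k k = true) (h : P → ℕ)
    (hh : ∀ k m, m ≠ k → chi k m = true → h m < h k)
    (F : (∀ k : P, Fin (a k) → ℝ) → (∀ k : P, Fin (a k) → ℝ)) (hF : Continuous F)
    (hodd : ∀ (k : P) (v : ∀ k : P, Fin (a k) → ℝ), (∀ m j, |v m j| ≤ 1) → (∃ j, |v k j| = 1) →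
      ∀ m j, F (Function.update v k (- v k)) m j = (if chi m k = true then - F v m j else F v m j)) :
    ∃ v : ∀ k : P, Fin (a k) → ℝ, (∀ m j, |v m j| ≤ 1) ∧ F v = 0 := by
  classical
  -- curry
  let cu : (QQ a → ℝ) → (∀ k : P, Fin (a k) → ℝ) := fun v k j => v ⟨k, j⟩
  have hcu : Continuous cu := by
    refine continuous_pi fun k => continuous_pi fun j => ?_
    exact continuous_apply _
  obtain ⟨v, hv, hv0⟩ := BUP_sigma a chi hchi h hh (fun v q => F (cu v) q.1 q.2)
    (by
      refine Continuous.continuousOn ?_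
      refine continuous_pi fun q => ?_
      exact (continuous_apply q.2).comp ((continuous_apply q.1).comp (hF.comp hcu)))
    (by
      intro k v hv hb
      obtain ⟨⟨k', j'⟩, hk', hj'⟩ := hb
      simp only at hk'
      subst hk'
      have h1 : cu (fun q => if q.1 = k' then - v q else v q)
          = Function.update (cu v) k' (- cu v k') := by
        funext m j
        by_cases hm : m = k'
        · subst hm
          simp [cu]
        · simp [cu, hm, Function.update_of_ne hm]
      funext q
      have h2 := hodd k' (cu v) (fun m j => hv ⟨m, j⟩) ⟨j', hj'⟩ q.1 q.2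
      simp only [h1, gk]
      rw [h2])
  refine ⟨cu v, fun m j => hv ⟨m, j⟩, ?_⟩
  funext m j
  exact congrFun hv0 ⟨m, j⟩

end BUC
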