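import Pool.Agent.Lib.MP_b9c6dd_an.BU.Defs

/-!
# Stability, negative part
-/

namespace BUC

open Finset

/-- If `0` is not a convex combination of the `x j`, this remains true for nearby families.
Proof: the function `(l, y) ↦ ∑ l j • y j` is continuous and the standard simplex is compact: the set of `y` with
`HZ y` is closed (`isClosedMap_snd_of_compactSpace`, or the minimum `m > 0` of `‖∑ l j • x j‖` over the simplex and
`‖∑ l j • (y j - x j)‖ ≤ δ`). -/
theorem stab_no {ι V : Type*} [Fintype ι] [NormedAddCommGroup V] [NormedSpace ℝ V]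
    (x : ι → V) (hx : ¬ HZ x) : ∃ δ > 0, ∀ y : ι → V, (∀ j, ‖y j - x j‖ < δ) → ¬ HZ y := by
  classical
  rcases (stdSimplex ℝ ι).eq_empty_or_nonempty with hE | hN
  · refine ⟨1, one_pos, fun y _ hy => ?_⟩
    obtain ⟨l, hl0, hl1, _⟩ := hy
    have : l ∈ stdSimplex ℝ ι := ⟨hl0, hl1⟩
    rw [hE] at this
    exact this
  · have hc : Continuous fun l : ι → ℝ => ‖∑ j, l j • x j‖ := by
      refine Continuous.norm ?_
      refine continuous_finset_sum _ fun j _ => ?_
      exact (continuous_apply j).smul continuous_const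
    obtain ⟨l0, hl0, hmin⟩ := (isCompact_stdSimplex ℝ ι).exists_isMinOn hN hc.continuousOn
    have hpos : 0 < ‖∑ j, l0 j • x j‖ := by
      rw [norm_pos_iff]
      intro h
      exact hx ⟨l0, hl0.1, hl0.2, h⟩
    refine ⟨‖∑ j, l0 j • x j‖ / 2, half_pos hpos, fun y hy hHZ => ?_⟩
    obtain ⟨l, hl1, hl2, hl3⟩ := hHZ
    have hm : ‖∑ j, l0 j • x j‖ ≤ ‖∑ j, l j • x j‖ := hmin (show l ∈ stdSimplex ℝ ι from ⟨hl1, hl2⟩)
    have e : ∑ j, l j • x j = - ∑ j, l j • (y j - x j) := by
      have h1 : ∑ j, l j • (y j - x j) = ∑ j, l j • y j - ∑ j, l j • x j := by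
        rw [← Finset.sum_sub_distrib]
        exact Finset.sum_congr rfl fun j _ => smul_sub _ _ _
      rw [h1, hl3, zero_sub, neg_neg]
    have h2 : ‖∑ j, l j • (y j - x j)‖ ≤ ∑ j, l j * (‖∑ j, l0 j • x j‖ / 2) := by
      refine (norm_sum_le _ _).trans (Finset.sum_le_sum fun j _ => ?_)
      rw [norm_smul, Real.norm_of_nonneg (hl1 j)]
      exact mul_le_mul_of_nonneg_left (hy j).le (hl1 j)
    rw [← Finset.sum_mul, hl2, one_mul] at h2
    rw [e, norm_neg] at hm
    linarith

end BUC
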