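import Pool.Agent.Lib.MP_b9c6dd_an.BU.Defs

/-!
# Stability, positive part
-/

namespace BUC

open Finset

/-- the square matrix of the affine conditions -/
def StabB_Z {κ ι : Type*} (e : ι ≃ Option κ) (y : ι → (κ → ℝ)) : Matrix ι ι ℝ :=
  fun i j => Option.elim (e i) 1 (fun q => y j q)

theorem StabB_cont {κ ι : Type*} (e : ι ≃ Option κ) :
    Continuous (StabB_Z e : (ι → (κ → ℝ)) → Matrix ι ι ℝ) := by
  refine continuous_matrix fun i j => ?_
  unfold StabB_Z
  cases e i with
  | none => exact continuous_const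
  | some q => exact (continuous_apply q).comp (continuous_apply j)

/-- the right side -/
def StabB_b {κ ι : Type*} (e : ι ≃ Option κ) : ι → ℝ := fun i => Option.elim (e i) 1 (fun _ => 0)

theorem StabB_iff {κ ι : Type*} [Fintype κ] [DecidableEq κ] [Fintype ι] [DecidableEq ι]
    (e : ι ≃ Option κ) (y : ι → (κ → ℝ)) (m : ι → ℝ) :
    (StabB_Z e y).mulVec m = StabB_b e ↔ (∑ j, m j = 1 ∧ ∑ j, m j • y j = 0) := by
  constructor
  · intro h
    constructor
    · have h1 := congrFun h (e.symm none)
      simp only [Matrix.mulVec, dotProduct, StabB_Z, StabB_b, Equiv.apply_symm_apply, Option.elim,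
        one_mul] at h1
      exact h1
    · funext q
      have h1 := congrFun h (e.symm (some q))
      simp only [Matrix.mulVec, dotProduct, StabB_Z, StabB_b, Equiv.apply_symm_apply, Option.elim] at h1
      rw [Finset.sum_apply]
      simp only [Pi.smul_apply, smul_eq_mul, Pi.zero_apply]
      rw [← h1]
      exact Finset.sum_congr rfl fun j _ => mul_comm _ _
  · rintro ⟨h1, h2⟩
    funext i
    simp only [Matrix.mulVec, dotProduct, StabB_Z, StabB_b]
    cases e i with
    | none => simpa using h1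
    | some q =>
      have h3 := congrFun h2 q
      rw [Finset.sum_apply] at h3
      simp only [Pi.smul_apply, smul_eq_mul, Pi.zero_apply] at h3
      simp only [Option.elim]
      rw [← h3]
      exact Finset.sum_congr rfl fun j _ => mul_comm _ _

/-- If `0` is a convex combination with positive coefficients of `card κ + 1` affinely independent vectors of `κ → ℝ`,
then `0` is a convex combination of nearby vectors.
Proof: the square matrix `Z(y)` with rows `Option κ` (row `none` is `1`, row `some q` is `y j q`) has `det Z(x) ≠ 0`; the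
solution `Z(y)⁻¹ e_none` depends continuously on `y` near `x` and equals `l > 0` at `x`. -/
theorem stab_yes {κ ι : Type*} [Fintype κ] [DecidableEq κ] [Fintype ι] [DecidableEq ι]
    (hcard : Fintype.card ι = Fintype.card κ + 1) (x : ι → (κ → ℝ)) (l : ι → ℝ)
    (hl : ∀ j, 0 < l j) (hl1 : ∑ j, l j = 1) (hl0 : ∑ j, l j • x j = 0)
    (hind : ∀ m : ι → ℝ, ∑ j, m j = 0 → ∑ j, m j • x j = 0 → m = 0) :
    ∃ δ > 0, ∀ y : ι → (κ → ℝ), (∀ j, ‖y j - x j‖ < δ) → HZ y := by
  have hc : Fintype.card ι = Fintype.card (Option κ) := by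
    rw [hcard, Fintype.card_option]
  let e : ι ≃ Option κ := Fintype.equivOfCardEq hc
  have hZl : (StabB_Z e x).mulVec l = StabB_b e := (StabB_iff e x l).2 ⟨hl1, hl0⟩
  have hdet : (StabB_Z e x).det ≠ 0 := by
    intro h0
    obtain ⟨m, hm, hm0⟩ := Matrix.exists_mulVec_eq_zero_iff.2 h0
    have h1 : (StabB_Z e x).mulVec (l + m) = StabB_b e := by
      rw [Matrix.mulVec_add, hZl, hm0, add_zero]
    obtain ⟨h2, h3⟩ := (StabB_iff e x (l + m)).1 h1
    refine hm (hind m ?_ ?_)
    · simp only [Pi.add_apply, Finset.sum_add_distrib, hl1] at h2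
      linarith
    · simp only [Pi.add_apply, add_smul, Finset.sum_add_distrib, hl0, zero_add] at h3
      exact h3
  let m : (ι → (κ → ℝ)) → ι → ℝ := fun y =>
    (StabB_Z e y).det⁻¹ • ((StabB_Z e y).adjugate.mulVec (StabB_b e))
  have hmx : m x = l := by
    show (StabB_Z e x).det⁻¹ • ((StabB_Z e x).adjugate.mulVec (StabB_b e)) = l
    rw [← hZl, Matrix.mulVec_mulVec, Matrix.adjugate_mul, Matrix.smul_mulVec, Matrix.one_mulVec,
      smul_smul, inv_mul_cancel₀ hdet, one_smul]
  have hmc : ContinuousAt m x := by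
    refine ContinuousAt.smul (ContinuousAt.inv₀ (StabB_cont e).matrix_det.continuousAt hdet) ?_
    exact ((StabB_cont e).matrix_adjugate.matrix_mulVec continuous_const).continuousAt
  have hev1 : ∀ᶠ y in nhds x, (StabB_Z e y).det ≠ 0 :=
    (StabB_cont e).matrix_det.continuousAt.eventually_ne hdet
  have hev2 : ∀ᶠ y in nhds x, ∀ j, 0 < m y j := by
    refine Filter.eventually_all.2 fun j => ?_
    have h1 : ContinuousAt (fun y => m y j) x := (continuous_apply j).continuousAt.comp hmc
    refine h1.eventually (lt_mem_nhds ?_)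
    show 0 < m x j
    rw [hmx]
    exact hl j
  obtain ⟨δ, hδ, hball⟩ := Metric.mem_nhds_iff.1 (hev1.and hev2)
  refine ⟨δ, hδ, fun y hy => ?_⟩
  have hyb : y ∈ Metric.ball x δ := by
    rw [Metric.mem_ball, dist_pi_lt_iff hδ]
    intro j
    rw [dist_eq_norm]
    exact hy j
  obtain ⟨h1, h2⟩ := hball hyb
  have h3 : (StabB_Z e y).mulVec (m y) = StabB_b e := by
    show (StabB_Z e y).mulVec ((StabB_Z e y).det⁻¹ • ((StabB_Z e y).adjugate.mulVec (StabB_b e))) = StabB_b e
    rw [Matrix.mulVec_smul, Matrix.mulVec_mulVec, Matrix.mul_adjugate, Matrix.smul_mulVec, Matrix.one_mulVec,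
      smul_smul, inv_mul_cancel₀ h1, one_smul]
  obtain ⟨h4, h5⟩ := (StabB_iff e y (m y)).1 h3
  exact ⟨m y, fun j => (h2 j).le, h4, h5⟩

end BUC
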