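import Pool.Agent.Lib.MP_b9c6dd_an.BU.Base
import Pool.Agent.Lib.MP_b9c6dd_an.BU.StabA
import Pool.Agent.Lib.MP_b9c6dd_an.BU.StabB

/-!
# Near the base map
-/

namespace BUC

open Finset Filter Topology

variable {P : Type} [Fintype P] [DecidableEq P]

private theorem MainA_mixv {a : P → ℕ} {M : ℕ} (w0 w1 : (QQ a → ℤ) → (QQ a → ℝ)) (s : Flag a M) :
    mixv w0 w1 s 0 = fun j : Fin (nn a + 1) => w0 (cell s j) := by
  funext j
  unfold mixv
  rw [if_neg (Nat.not_lt_zero _)]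

private theorem MainA_flag (a : P → ℕ) (chi : P → P → Bool) (h : P → ℕ)
    (hh : ∀ k m, m ≠ k → chi k m = true → h m < h k) (M : ℕ) (hM : 1 ≤ M) (s : Flag a M) :
    ∃ δ > 0, ∀ y : Fin (nn a + 1) → (QQ a → ℝ), (∀ j : Fin (nn a + 1), ‖y j - wb a chi M (cell s j)‖ < δ) →
      (HZ y ↔ s = sb a M hM) := by
  by_cases hs : s = sb a M hM
  · subst hs
    have hn : (0 : ℝ) < (nn a : ℝ) + 1 := by positivity
    have hl1 : ∑ _j : Fin (nn a + 1), (1 / ((nn a : ℝ) + 1)) = 1 := by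
      rw [Finset.sum_const, Finset.card_univ, Fintype.card_fin, nsmul_eq_mul, Nat.cast_add, Nat.cast_one,
        mul_one_div_cancel hn.ne']
    obtain ⟨δ, hδ, hy⟩ := stab_yes (κ := QQ a) (ι := Fin (nn a + 1)) (by rw [Fintype.card_fin])
      (fun j => wb a chi M (cell (sb a M hM) j)) (fun _ => 1 / ((nn a : ℝ) + 1)) (fun _ => by positivity) hl1
      (by
        funext q
        rw [Finset.sum_apply, Pi.zero_apply]
        have h1 : ∀ j : Fin (nn a + 1), ((1 / ((nn a : ℝ) + 1)) • wb a chi M (cell (sb a M hM) j)) q =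
            (1 / ((nn a : ℝ) + 1)) * ((cell (sb a M hM) j q : ℤ) : ℝ) - (1 / ((nn a : ℝ) + 1)) * eta a q := by
          intro j
          rw [Pi.smul_apply, smul_eq_mul, wb_sb, mul_sub]
        rw [Finset.sum_congr rfl fun j _ => h1 j, Finset.sum_sub_distrib, sb_sum, ← Finset.sum_mul, hl1, one_mul,
          sub_self])
      (fun m hm hm0 => sb_indep a chi M hM m hm hm0)
    exact ⟨δ, hδ, fun y hyy => ⟨fun _ => rfl, fun _ => hy y hyy⟩⟩
  · have hno : ¬ HZ (fun j : Fin (nn a + 1) => wb a chi M (cell s j)) :=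
      fun h' => hs (wb_unique a chi h hh M hM s h')
    obtain ⟨δ, hδ, hy⟩ := stab_no _ hno
    exact ⟨δ, hδ, fun y hyy => ⟨fun h' => absurd h' (hy y hyy), fun h' => absurd h' hs⟩⟩

/-- Near the base map the number of flags is `1`. -/
theorem NN_near_base (a : P → ℕ) (chi : P → P → Bool) (h : P → ℕ)
    (hh : ∀ k m, m ≠ k → chi k m = true → h m < h k) (M : ℕ) (hM : 1 ≤ M) :
    ∃ δ > 0, ∀ w0 w1 : (QQ a → ℤ) → (QQ a → ℝ),
      (∀ (s : Flag a M) (j : Fin (nn a + 1)), ‖w0 (cell s j) - wb a chi M (cell s j)‖ < δ) →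
      (NN (a := a) (M := M) w0 w1 0 : ZMod 2) = 1 := by
  classical
  choose D hD hDy using MainA_flag a chi h hh M hM
  obtain ⟨s0, -, hs0⟩ := Finset.exists_min_image (univ : Finset (Flag a M)) D ⟨sb a M hM, mem_univ _⟩
  refine ⟨D s0, hD s0, fun w0 w1 hw => ?_⟩
  have key : ∀ s : Flag a M, HZ (mixv w0 w1 s 0) ↔ s = sb a M hM := by
    intro s
    rw [MainA_mixv]
    exact hDy s _ fun j => lt_of_lt_of_le (hw s j) (hs0 s (mem_univ s))
  unfold NN
  rw [Finset.sum_congr rfl (g := fun s => if s = sb a M hM then (1 : ZMod 2) else 0)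
    (fun s _ => if_congr (key s) rfl rfl), Finset.sum_ite_eq', if_pos (mem_univ _)]

end BUC
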