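import Pool.Agent.Lib.MP_b9c6dd_an.BU.Inv
import Pool.Agent.Lib.MP_b9c6dd_an.BU.GenE
import Pool.Agent.Lib.MP_b9c6dd_an.BU.MainA

/-!
# Existence of a flag
-/

namespace BUC

open Finset Filter Topology

variable {P : Type} [Fintype P] [DecidableEq P]

theorem adm_add_smul {a : P → ℕ} {chi : P → P → Bool} {M : ℕ} {w u : (QQ a → ℤ) → (QQ a → ℝ)}
    (hw : Adm a chi M w) (hu : Adm a chi M u) (t : ℝ) : Adm a chi M (w + t • u) := by
  intro k c hc
  have h1 := hw k c hc
  have h2 := hu k c hc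
  funext q
  have h3 := congrFun h1 q
  have h4 := congrFun h2 q
  simp only [gk] at h3 h4
  simp only [Pi.add_apply, Pi.smul_apply, smul_eq_mul, gk]
  rw [h3, h4]
  split_ifs <;> ring

/-- Every admissible map can be approximated by a map `w1` which has a flag with `0` in the convex hull. -/
theorem exists_flag (a : P → ℕ) (chi : P → P → Bool) (hchi : ∀ k, chi k k = true) (h : P → ℕ)
    (hh : ∀ k m, m ≠ k → chi k m = true → h m < h k) (M : ℕ) (hM : 1 ≤ M)
    (w : (QQ a → ℤ) → (QQ a → ℝ)) (hw : Adm a chi M w) (ε : ℝ) (hε : 0 < ε) :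
    ∃ s : Flag a M, ∃ y : Fin (nn a + 1) → (QQ a → ℝ), HZ y ∧ ∀ j, ‖y j - w (cell s j)‖ < ε := by
  classical
  obtain ⟨δ, hδ, hN⟩ := NN_near_base a chi h hh M hM
  obtain ⟨u0, u1, hu0, hu1, hg⟩ := exists_generic a chi M hM
  have hgen := hg (wb a chi M) w (wb_adm a chi hchi M) hw
  have hsmall : ∀ (u : (QQ a → ℤ) → (QQ a → ℝ)) (r : ℝ), 0 < r → ∀ᶠ t in 𝓝[≠] (0 : ℝ),
      ∀ (s : Flag a M) (j : Fin (nn a + 1)), ‖t • u (cell s j)‖ < r := by
    intro u r hr
    rw [eventually_all]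
    intro s
    rw [eventually_all]
    intro j
    refine eventually_nhdsWithin_of_eventually_nhds ?_
    have hc : Continuous (fun t : ℝ => ‖t • u (cell s j)‖) := by fun_prop
    have h0 : Tendsto (fun t : ℝ => ‖t • u (cell s j)‖) (𝓝 0) (𝓝 0) := by
      have := hc.tendsto 0
      simpa using this
    exact h0.eventually (gt_mem_nhds hr)
  obtain ⟨t, ht1, ht2, ht3⟩ := (hgen.and ((hsmall u0 δ hδ).and (hsmall u1 ε hε))).exists
  have hN1 := hN (wb a chi M + t • u0) (w + t • u1) (by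
    intro s j
    simpa using ht2 s j)
  have hinv := NN_inv (adm_add_smul (wb_adm a chi hchi M) hu0 t) (adm_add_smul hw hu1 t) ht1
  rw [hN1] at hinv
  have hex : ∃ s : Flag a M, HZ (mixv (wb a chi M + t • u0) (w + t • u1) s (nn a + 1)) := by
    by_contra hno
    push Not at hno
    unfold NN at hinv
    rw [Finset.sum_eq_zero (fun s _ => if_neg (hno s))] at hinv
    exact one_ne_zero hinv
  obtain ⟨s, hs⟩ := hex
  refine ⟨s, _, hs, fun j => ?_⟩
  have hj : mixv (wb a chi M + t • u0) (w + t • u1) s (nn a + 1) j = (w + t • u1) (cell s j) := by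
    unfold mixv
    rw [if_pos j.2]
  rw [hj]
  simpa using ht3 s j

end BUC
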