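import Pool.Agent.Lib.MP_b9c6dd_an.BU.MainB

/-!
# Borsuk-Ulam, sigma type
-/

namespace BUC

open Finset Filter Topology

variable {P : Type} [Fintype P] [DecidableEq P]

/-- two cells of a flag differ by at most 1 -/
theorem cell_sub (a : P → ℕ) (M : ℕ) (s : Flag a M) (i j : ℕ) (q : QQ a) :
    |cell s i q - cell s j q| ≤ 1 := by
  have he : |ec s q| = 1 := by
    unfold ec
    split_ifs <;> simp
  unfold cell
  split_ifs
  · simp
  · rw [sub_add_cancel_left, abs_neg, he]
  · rw [add_sub_cancel_left, he]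
  · simp

/-- **Borsuk-Ulam for products of cubes**, coordinates indexed by the sigma type. -/
theorem BUP_sigma (a : P → ℕ) (chi : P → P → Bool) (hchi : ∀ k, chi k k = true) (h : P → ℕ)
    (hh : ∀ k m, m ≠ k → chi k m = true → h m < h k)
    (F : (QQ a → ℝ) → (QQ a → ℝ)) (hF : ContinuousOn F {v | ∀ q, |v q| ≤ 1})
    (hodd : ∀ (k : P) (v : QQ a → ℝ), (∀ q, |v q| ≤ 1) → (∃ q : QQ a, q.1 = k ∧ |v q| = 1) →
      F (fun q => if q.1 = k then - v q else v q) = gk a chi k (F v)) :
    ∃ v : QQ a → ℝ, (∀ q, |v q| ≤ 1) ∧ F v = 0 := by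
  by_contra hcon
  push Not at hcon
  set K : Set (QQ a → ℝ) := {v | ∀ q, |v q| ≤ 1} with hK
  have hKc : IsCompact K := by
    have : K = Set.pi Set.univ (fun _ : QQ a => Set.Icc (-1 : ℝ) 1) := by
      ext v
      simp only [hK, Set.mem_setOf_eq, Set.mem_univ_pi, Set.mem_Icc, abs_le]
    rw [this]
    exact isCompact_univ_pi fun _ => isCompact_Icc
  have hKn : K.Nonempty := ⟨0, fun q => by simp⟩
  obtain ⟨vm, hvm, hmin⟩ := hKc.exists_isMinOn hKn (hF.norm)
  have hd0 : 0 < ‖F vm‖ := norm_pos_iff.2 (hcon vm hvm)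
  set d := ‖F vm‖ with hd
  have hlow : ∀ v ∈ K, d ≤ ‖F v‖ := fun v hv => hmin hv
  have huc := hKc.uniformContinuousOn_of_continuous hF
  rw [Metric.uniformContinuousOn_iff] at huc
  obtain ⟨η, hη, hu⟩ := huc (d / 4) (by positivity)
  obtain ⟨M, hM⟩ := exists_nat_gt (1 / η)
  have hMpos : (0 : ℝ) < M := lt_trans (by positivity) hM
  have hM1 : 1 ≤ M := by exact_mod_cast Nat.one_le_iff_ne_zero.2 (by
    rintro rfl; simp at hMpos)
  have hM2 : 1 / (2 * (M : ℝ)) < η := by
    rw [div_lt_iff₀ (by positivity)]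
    rw [div_lt_iff₀ hη] at hM
    nlinarith
  -- the map on cells
  let sc : (QQ a → ℤ) → (QQ a → ℝ) := fun c q => (c q : ℝ) / (2 * (M : ℝ))
  have hsc : ∀ c : QQ a → ℤ, (∀ q, |c q| ≤ 2 * (M : ℤ)) → sc c ∈ K := by
    intro c hc q
    simp only [sc, abs_div]
    rw [abs_of_pos (by positivity : (0 : ℝ) < 2 * (M : ℝ)), div_le_one (by positivity)]
    have := hc q
    exact_mod_cast this
  have hadm : Adm a chi M (fun c => F (sc c)) := by
    intro k c hc
    obtain ⟨h1, q, hq, hq1⟩ := hc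
    have h2 : sc (refl a k c) = fun q => if q.1 = k then - sc c q else sc c q := by
      funext q'
      simp only [sc, refl]
      split_ifs
      · push_cast
        ring
      · rfl
    simp only [h2]
    refine hodd k (sc c) (hsc c h1) ⟨q, hq, ?_⟩
    simp only [sc, abs_div]
    rw [abs_of_pos (by positivity : (0 : ℝ) < 2 * (M : ℝ)), div_eq_one_iff_eq (by positivity)]
    exact_mod_cast hq1
  obtain ⟨s, y, ⟨l, hl, hl1, hl0⟩, hy⟩ :=
    exists_flag a chi hchi h hh M hM1 (fun c => F (sc c)) hadm (d / 4) (by positivity)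
  have hcell : ∀ i : ℕ, sc (cell s i) ∈ K := fun i => hsc _ (cell_abs_le s i)
  have hclose : ∀ j : Fin (nn a + 1), ‖F (sc (cell s 0)) - y j‖ ≤ d / 2 := by
    intro j
    have h1 : dist (sc (cell s 0)) (sc (cell s j)) < η := by
      refine lt_of_le_of_lt ?_ hM2
      rw [dist_pi_le_iff (by positivity)]
      intro q
      rw [Real.dist_eq]
      simp only [sc]
      rw [← sub_div, abs_div, abs_of_pos (by positivity : (0 : ℝ) < 2 * (M : ℝ))]
      gcongr
      have := cell_sub a M s 0 j q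
      exact_mod_cast this
    have h2 := hu _ (hcell 0) _ (hcell j) h1
    rw [dist_eq_norm] at h2
    have h3 := hy j
    calc ‖F (sc (cell s 0)) - y j‖
        = ‖(F (sc (cell s 0)) - F (sc (cell s j))) + -(y j - F (sc (cell s j)))‖ := by
          congr 1; abel
      _ ≤ ‖F (sc (cell s 0)) - F (sc (cell s j))‖ + ‖-(y j - F (sc (cell s j)))‖ := norm_add_le _ _
      _ ≤ d / 4 + d / 4 := by
          rw [norm_neg]
          exact add_le_add h2.le h3.le
      _ = d / 2 := by ring
  have hsum : F (sc (cell s 0)) = ∑ j, l j • (F (sc (cell s 0)) - y j) := by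
    simp only [smul_sub, Finset.sum_sub_distrib, hl0, sub_zero]
    rw [← Finset.sum_smul, hl1, one_smul]
  have hbound : ‖F (sc (cell s 0))‖ ≤ d / 2 := by
    rw [hsum]
    refine (norm_sum_le _ _).trans ?_
    calc ∑ j, ‖l j • (F (sc (cell s 0)) - y j)‖ ≤ ∑ j, l j * (d / 2) := by
          refine Finset.sum_le_sum fun j _ => ?_
          rw [norm_smul, Real.norm_of_nonneg (hl j)]
          exact mul_le_mul_of_nonneg_left (hclose j) (hl j)
      _ = d / 2 := by rw [← Finset.sum_mul, hl1, one_mul]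
  have := hlow _ (hcell 0)
  linarith

end BUC
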